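import Pool.Agent.PNR.Basic

/-! Few bad indices: union bound and double counting of a volume. -/

set_option autoImplicit false

open MeasureTheory Set
open scoped Pointwise

namespace Pool.Agent.PNR

open Pool.Agent.Rog (E SymBody)
open Pool.Agent.HRP

open Classical in
theorem bad (n : ℕ) (M : Set (E n)) (ι S : Type) [Fintype ι] [Fintype S]
    (c : S → ι → E n) (T : S → Set (E n)) (r t D : ℝ) (hM : IsCompact M)
    (hMpos : 0 < volume.real M) (hr : 0 < r) (hD : 0 ≤ D)
    (hT : ∀ σ, IsCompact (T σ)) (hTv : ∀ σ, volume.real (T σ) ≤ t ^ n * volume.real M)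
    (hmult : ∀ (σ : S) (u : E n),
      (({p | ∃ w ∈ M, u = c σ p + r • w} : Set ι).ncard : ℝ) ≤ D) :
    (({p | ∀ w ∈ M, ∃ σ, c σ p + r • w ∈ T σ} : Set ι).ncard : ℝ) * r ^ n ≤
      Fintype.card S * D * t ^ n := by
  set V := volume.real M with hV
  -- the bad indices
  set Bd : Finset ι := Finset.univ.filter (fun p => ∀ w ∈ M, ∃ σ, c σ p + r • w ∈ T σ) with hBd
  have hcard : (({p | ∀ w ∈ M, ∃ σ, c σ p + r • w ∈ T σ} : Set ι).ncard : ℝ) = Bd.card := by
    rw [← Set.ncard_coe_finset]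
    congr 2
    ext p
    simp [hBd]
  rw [hcard]
  set Q : S → ι → Set (E n) := fun σ p => (fun w => c σ p + r • w) '' M with hQ
  have hQc : ∀ σ p, IsCompact (Q σ p) := by
    intro σ p
    exact hM.image (by fun_prop)
  have htMfin : ∀ σ, volume (T σ) ≠ ⊤ := fun σ => (hT σ).measure_lt_top.ne
  -- one bad index
  have hone : ∀ p ∈ Bd, r ^ n * V ≤ ∑ σ : S, volume.real (Q σ p ∩ T σ) := by
    intro p hp
    have hp' : ∀ w ∈ M, ∃ σ, c σ p + r • w ∈ T σ := (Finset.mem_filter.mp hp).2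
    set G : S → Set (E n) := fun σ => {w | w ∈ M ∧ c σ p + r • w ∈ T σ} with hG
    have hsub : M ⊆ ⋃ σ ∈ (Finset.univ : Finset S), G σ := by
      intro w hw
      obtain ⟨σ, hσ⟩ := hp' w hw
      simp only [mem_iUnion, Finset.mem_univ, exists_true_left]
      exact ⟨σ, hw, hσ⟩
    have hGM : ∀ σ, G σ ⊆ M := fun σ w hw => hw.1
    have hVle : V ≤ ∑ σ : S, volume.real (G σ) := by
      have h1 : V ≤ volume.real (⋃ σ ∈ (Finset.univ : Finset S), G σ) := by
        refine measureReal_mono hsub ?_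
        refine ne_top_of_le_ne_top hM.measure_lt_top.ne (measure_mono ?_)
        exact iUnion₂_subset fun σ _ => hGM σ
      exact h1.trans (measureReal_biUnion_finset_le _ _)
    have hGQ : ∀ σ, r ^ n * volume.real (G σ) = volume.real (Q σ p ∩ T σ) := by
      intro σ
      rw [← BAD_.vol_image (G σ) (c σ p) r hr.le]
      congr 1
      ext u
      simp only [hQ, hG, mem_image, mem_inter_iff, mem_ofPred_eq]
      constructor
      · rintro ⟨w, ⟨hw, hw'⟩, rfl⟩
        exact ⟨⟨w, hw, rfl⟩, hw'⟩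
      · rintro ⟨⟨w, hw, rfl⟩, hu⟩
        exact ⟨w, ⟨hw, hu⟩, rfl⟩
    calc r ^ n * V ≤ r ^ n * ∑ σ : S, volume.real (G σ) :=
          mul_le_mul_of_nonneg_left hVle (pow_nonneg hr.le n)
      _ = ∑ σ : S, r ^ n * volume.real (G σ) := Finset.mul_sum _ _ _
      _ = ∑ σ : S, volume.real (Q σ p ∩ T σ) := Finset.sum_congr rfl fun σ _ => hGQ σ
  -- double counting
  have hsum : ∀ σ : S, ∑ p ∈ Bd, volume.real (Q σ p ∩ T σ) ≤ D * volume.real (T σ) := by
    intro σ
    refine BAD_.mult volume Bd (T σ) (Q σ) D (htMfin σ) (fun p _ => (hQc σ p).measurableSet) ?_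
    intro u
    have h1 : ∑ p ∈ Bd, (Q σ p).indicator (fun _ => (1 : ℝ)) u ≤
        ∑ p : ι, (Q σ p).indicator (fun _ => (1 : ℝ)) u := by
      refine Finset.sum_le_sum_of_subset_of_nonneg (Finset.subset_univ _) ?_
      intro p _ _
      exact indicator_nonneg (fun _ _ => zero_le_one) u
    refine h1.trans (le_trans (le_of_eq ?_) (hmult σ u))
    have h2 : ∀ p : ι, (Q σ p).indicator (fun _ => (1 : ℝ)) u =
        if (∃ w ∈ M, u = c σ p + r • w) then (1 : ℝ) else 0 := by
      intro p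
      by_cases h : ∃ w ∈ M, u = c σ p + r • w
      · rw [if_pos h, indicator_of_mem]
        obtain ⟨w, hw, hu⟩ := h
        exact ⟨w, hw, hu.symm⟩
      · rw [if_neg h, indicator_of_notMem]
        rintro ⟨w, hw, hu⟩
        exact h ⟨w, hw, hu.symm⟩
    rw [Finset.sum_congr rfl fun p _ => h2 p, Finset.sum_boole]
    have h3 : ({p | ∃ w ∈ M, u = c σ p + r • w} : Set ι) =
        ((Finset.univ.filter (fun p => ∃ w ∈ M, u = c σ p + r • w) : Finset ι) : Set ι) := by
      ext p; simp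
    rw [h3, Set.ncard_coe_finset]
  have htot : (Bd.card : ℝ) * (r ^ n * V) ≤ Fintype.card S * (D * (t ^ n * V)) := by
    calc (Bd.card : ℝ) * (r ^ n * V) = ∑ _p ∈ Bd, r ^ n * V := by
          rw [Finset.sum_const, nsmul_eq_mul]
      _ ≤ ∑ p ∈ Bd, ∑ σ : S, volume.real (Q σ p ∩ T σ) := Finset.sum_le_sum hone
      _ = ∑ σ : S, ∑ p ∈ Bd, volume.real (Q σ p ∩ T σ) := Finset.sum_comm
      _ ≤ ∑ σ : S, D * volume.real (T σ) := Finset.sum_le_sum fun σ _ => hsum σ
      _ ≤ ∑ _σ : S, D * (t ^ n * V) :=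
          Finset.sum_le_sum fun σ _ => mul_le_mul_of_nonneg_left (hTv σ) hD
      _ = Fintype.card S * (D * (t ^ n * V)) := by
          rw [Finset.sum_const, nsmul_eq_mul]
          rfl
  have h5 : (Bd.card : ℝ) * r ^ n * V ≤ (Fintype.card S * D * t ^ n) * V := by
    calc (Bd.card : ℝ) * r ^ n * V = (Bd.card : ℝ) * (r ^ n * V) := by ring
      _ ≤ Fintype.card S * (D * (t ^ n * V)) := htot
      _ = (Fintype.card S * D * t ^ n) * V := by ring
  exact le_of_mul_le_mul_right h5 hMpos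

end Pool.Agent.PNR
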