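import Pool.Agent.PNR.Defs

/-! Basic facts about the half difference body. -/

set_option autoImplicit false

open MeasureTheory Set
open scoped Pointwise Topology

namespace Pool.Agent.PNR

open Pool.Agent.Rog (E SymBody)

variable {n : ℕ} {F : Set (E n)}

lemma Body.nonempty (hF : Body F) : F.Nonempty := hF.int.mono interior_subset

lemma KK_symm (F : Set (E n)) : ∀ x ∈ KK F, -x ∈ KK F := by
  rintro _ ⟨x, hx, y, hy, rfl⟩
  exact ⟨y, hy, x, hx, by rw [← smul_neg, neg_sub]⟩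

lemma KK_convex (hF : Convex ℝ F) : Convex ℝ (KK F) := by
  rintro _ ⟨x, hx, y, hy, rfl⟩ _ ⟨x', hx', y', hy', rfl⟩ a b ha hb hab
  refine ⟨a • x + b • x', hF hx hx' ha hb hab, a • y + b • y', hF hy hy' ha hb hab, ?_⟩
  module

lemma KK_compact (hF : IsCompact F) : IsCompact (KK F) := by
  have h1 : IsCompact ((fun p : E n × E n => (1 / 2 : ℝ) • (p.1 - p.2)) '' (F ×ˢ F)) :=
    (hF.prod hF).image (by fun_prop)
  have h2 : KK F = (fun p : E n × E n => (1 / 2 : ℝ) • (p.1 - p.2)) '' (F ×ˢ F) := by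
    ext z
    constructor
    · rintro ⟨x, hx, y, hy, rfl⟩
      exact ⟨(x, y), ⟨hx, hy⟩, rfl⟩
    · rintro ⟨p, ⟨hx, hy⟩, rfl⟩
      exact ⟨p.1, hx, p.2, hy, rfl⟩
  rw [h2]
  exact h1

lemma KK_int (hF : Body F) : (interior (KK F)).Nonempty := by
  obtain ⟨o, ho⟩ := hF.int
  have hoF : o ∈ F := interior_subset ho
  set e : E n → E n := fun x => (2 : ℝ) • x + o with he
  have hec : Continuous e := by fun_prop
  have h1 : IsOpen (e ⁻¹' interior F) := isOpen_interior.preimage hec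
  have h2 : e ⁻¹' interior F ⊆ KK F := by
    intro x hx
    refine ⟨e x, interior_subset hx, o, hoF, ?_⟩
    rw [he]
    simp only [add_sub_cancel_right, smul_smul]
    norm_num
  refine ⟨0, interior_maximal h2 h1 ?_⟩
  rw [mem_preimage, he]
  simpa using ho

lemma KK_sym (hF : Body F) : SymBody (KK F) :=
  ⟨KK_compact hF.cpt, KK_convex hF.cvx, KK_int hF, KK_symm F⟩

lemma sub_mem (F : Set (E n)) {x y : E n} (hx : x ∈ F) (hy : y ∈ F) :
    x - y ∈ (2 : ℝ) • KK F := by
  refine ⟨(1 / 2 : ℝ) • (x - y), ⟨x, hx, y, hy, rfl⟩, ?_⟩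
  simp only [smul_smul]
  norm_num

lemma zero_mem {K : Set (E n)} (hK : SymBody K) : (0 : E n) ∈ K :=
  Pool.Agent.Rog.MAXN_.zero_mem hK

lemma smul_mono {K : Set (E n)} (hK : SymBody K) {a b : ℝ} (ha : 0 ≤ a) (hab : a ≤ b) {v : E n}
    (hv : v ∈ a • K) : v ∈ b • K := by
  obtain ⟨k, hk, rfl⟩ := hv
  rcases eq_or_lt_of_le (ha.trans hab) with hb | hb
  · have : a = 0 := le_antisymm (hab.trans hb.symm.le) ha
    refine ⟨k, hk, ?_⟩
    simp [this, ← hb]
  · refine ⟨(a / b) • k, ?_, ?_⟩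
    · exact hK.cvx.smul_mem_of_zero_mem (zero_mem hK) hk ⟨by positivity, (div_le_one hb).2 hab⟩
    · change b • (a / b) • k = a • k
      rw [smul_smul, mul_div_cancel₀ _ hb.ne']

lemma add_mem_smul {K : Set (E n)} (hK : SymBody K) {a b : ℝ} (ha : 0 ≤ a) (hb : 0 ≤ b)
    {x y : E n} (hx : x ∈ a • K) (hy : y ∈ b • K) : x + y ∈ (a + b) • K := by
  rw [hK.cvx.add_smul ha hb]
  exact add_mem_add hx hy

lemma neg_mem_smul {K : Set (E n)} (hK : SymBody K) {a : ℝ} {x : E n} (hx : x ∈ a • K) :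
    -x ∈ a • K := by
  obtain ⟨k, hk, rfl⟩ := hx
  refine ⟨-k, hK.symm k hk, ?_⟩
  change a • -k = -(a • k)
  rw [smul_neg]

lemma smul_mem_smul {K : Set (E n)} (a b : ℝ) {x : E n} (hx : x ∈ a • K) :
    b • x ∈ (b * a) • K := by
  obtain ⟨k, hk, rfl⟩ := hx
  exact ⟨k, hk, by simp only [smul_smul]⟩

lemma sum_mem_smul {K : Set (E n)} (hK : SymBody K) {ι : Type*} (s : Finset ι) (a : ι → ℝ)
    (v : ι → E n) (ha : ∀ i ∈ s, 0 ≤ a i) (hv : ∀ i ∈ s, v i ∈ a i • K) :
    ∑ i ∈ s, v i ∈ (∑ i ∈ s, a i) • K := by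
  classical
  induction s using Finset.induction_on with
  | empty =>
    simp only [Finset.sum_empty]
    exact ⟨0, zero_mem hK, by simp⟩
  | insert i s hi ih =>
    rw [Finset.sum_insert hi, Finset.sum_insert hi]
    refine add_mem_smul hK (ha i (Finset.mem_insert_self i s))
      (Finset.sum_nonneg fun j hj => ha j (Finset.mem_insert_of_mem hj))
      (hv i (Finset.mem_insert_self i s))
      (ih (fun j hj => ha j (Finset.mem_insert_of_mem hj))
        (fun j hj => hv j (Finset.mem_insert_of_mem hj)))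

lemma sign_mem_smul {K : Set (E n)} (hK : SymBody K) {a s : ℝ} (hs : s = 1 ∨ s = -1) {x : E n}
    (hx : x ∈ a • K) : s • x ∈ a • K := by
  rcases hs with h | h
  · rw [h, one_smul]
    exact hx
  · rw [h, neg_smul, one_smul]
    exact neg_mem_smul hK hx

lemma geom_b (b : ℝ) (m : ℕ) : (∑ j : Fin m, b ^ (j : ℕ)) * (1 - b) = 1 - b ^ m := by
  rw [Fin.sum_univ_eq_sum_range (fun i => b ^ i) m, mul_comm]
  exact mul_neg_geom_sum b m

/-- positive volume -/
lemma vol_pos {K : Set (E n)} (hc : IsCompact K) (hi : (interior K).Nonempty) :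
    0 < volume.real K := by
  rw [measureReal_def]
  refine ENNReal.toReal_pos ?_ hc.measure_lt_top.ne
  intro h
  exact (isOpen_interior.measure_pos volume hi).ne' (measure_mono_null interior_subset h)

/-- The isodiametric inequality for compact convex sets. -/
lemma isodiam {K A : Set (E n)} (hn : 1 ≤ n) (hK : SymBody K) (hA : IsCompact A)
    (hAc : Convex ℝ A) (hne : A.Nonempty) {r : ℝ} (hr : 0 ≤ r)
    (h : ∀ x ∈ A, ∀ y ∈ A, x - y ∈ (2 * r) • K) : volume.real A ≤ r ^ n * volume.real K := by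
  have hneg : IsCompact ((fun x : E n => -x) '' A) := hA.image continuous_neg
  have hnegc : Convex ℝ ((fun x : E n => -x) '' A) := by
    rintro _ ⟨x, hx, rfl⟩ _ ⟨y, hy, rfl⟩ a b ha hb hab
    exact ⟨a • x + b • y, hAc hx hy ha hb hab, by simp only; module⟩
  have h1 := Pool.Agent.Rog.p_BMI n A ((fun x : E n => -x) '' A) hn hA hAc hne hneg hnegc
    (hne.image _) (1 / 2) (1 / 2) (by norm_num) (by norm_num) (by norm_num)
  have hvol : volume.real ((fun x : E n => -x) '' A) = volume.real A := by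
    have h2 : (fun x : E n => -x) '' A = -A := image_neg_eq_neg
    rw [h2, measureReal_def, Measure.measure_neg, measureReal_def]
  rw [hvol] at h1
  have h3 : (1 / 2 : ℝ) • A + (1 / 2 : ℝ) • ((fun x : E n => -x) '' A) ⊆ r • K := by
    rintro _ ⟨_, ⟨x, hx, rfl⟩, _, ⟨_, ⟨y, hy, rfl⟩, rfl⟩, rfl⟩
    have h4 := smul_mem_smul (2 * r) (1 / 2) (h x hx y hy)
    have h5 : (1 / 2 : ℝ) * (2 * r) = r := by ring
    rw [h5] at h4
    have h6 : (1 / 2 : ℝ) • x + (1 / 2 : ℝ) • -y = (1 / 2 : ℝ) • (x - y) := by module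
    simp only
    rw [h6]
    exact h4
  have h7 : volume.real (r • K) = r ^ n * volume.real K := Pool.Agent.HRP.BAD_.vol_smul K r hr
  have h8 : volume.real ((1 / 2 : ℝ) • A + (1 / 2 : ℝ) • ((fun x : E n => -x) '' A)) ≤
      volume.real (r • K) :=
    measureReal_mono h3 (hK.cpt.smul r).measure_lt_top.ne
  have hn0 : (0 : ℝ) < 1 / n := by
    have : (0 : ℝ) < n := by exact_mod_cast (by omega : 0 < n)
    positivity
  have h9 : volume.real A ^ ((1 : ℝ) / n) ≤ (r ^ n * volume.real K) ^ ((1 : ℝ) / n) := by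
    calc volume.real A ^ ((1 : ℝ) / n)
        = 1 / 2 * volume.real A ^ ((1 : ℝ) / n) + 1 / 2 * volume.real A ^ ((1 : ℝ) / n) := by ring
      _ ≤ _ := h1
      _ ≤ (r ^ n * volume.real K) ^ ((1 : ℝ) / n) := by
          rw [← h7]
          exact Real.rpow_le_rpow measureReal_nonneg h8 hn0.le
  exact (Real.rpow_le_rpow_iff measureReal_nonneg
    (mul_nonneg (pow_nonneg hr n) measureReal_nonneg) hn0).1 h9

end Pool.Agent.PNR
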