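import Pool.Agent.PNR.Basic

/-! Chains of sets: diameter and multiplicity. -/

set_option autoImplicit false

open MeasureTheory Set
open scoped Pointwise Topology

namespace Pool.Agent.PNR

open Pool.Agent.Rog (E SymBody)

variable {n : ℕ}

/-- splitting off the first term of the chain -/
lemma chain_split {ι : Type} (m : ℕ) (x : ι → E n) (b : ℝ) (s : Fin (m + 1) → ℝ)
    (p : Fin (m + 1) → ι) :
    (∑ j : Fin (m + 1), (b ^ (j : ℕ) * s j) • x (p j)) =
      s 0 • x (p 0) + b • (∑ j : Fin m, (b ^ (j : ℕ) * Fin.tail s j) • x (Fin.tail p j)) := by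
  rw [Fin.sum_univ_succ, Finset.smul_sum]
  congr 1
  · simp
  · refine Finset.sum_congr rfl fun j _ => ?_
    rw [smul_smul]
    congr 1
    rw [Fin.val_succ, pow_succ']
    unfold Fin.tail
    ring

/-- The chain of a family of small diameter and small multiplicity. -/
lemma chain {K : Set (E n)} (hK : SymBody K) {ι : Type} [Fintype ι] (x : ι → E n) (q b C : ℝ)
    (hq : 0 ≤ q) (hb : 0 < b) (hb1 : b ≤ 1) (hC : 0 ≤ C)
    (hx : ∀ i j, x i - x j ∈ (2 * q * (1 - b)) • K) (hM : Mult K x (2 * q * b) C) :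
    ∀ (m : ℕ) (s : Fin m → ℝ), (∀ j, s j = 1 ∨ s j = -1) →
      (∀ p p' : Fin m → ι, (∑ j : Fin m, (b ^ (j : ℕ) * s j) • x (p j)) -
        (∑ j : Fin m, (b ^ (j : ℕ) * s j) • x (p' j)) ∈ (2 * q * (1 - b ^ m)) • K) ∧
      Mult K (fun p : Fin m → ι => ∑ j : Fin m, (b ^ (j : ℕ) * s j) • x (p j))
        (2 * q * b ^ m) (C ^ m) := by
  classical
  intro m
  induction m with
  | zero =>
    intro s hs
    refine ⟨?_, ?_⟩
    · intro p p'
      simp only [Finset.univ_eq_empty, Finset.sum_empty, sub_self, pow_zero, mul_zero]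
      exact ⟨0, zero_mem hK, by simp⟩
    · intro S hS
      have h1 : ({p | (∑ j : Fin 0, (b ^ (j : ℕ) * s j) • x (p j)) ∈ S} :
          Set (Fin 0 → ι)).ncard ≤ 1 := by
        rw [Set.ncard_le_one_iff]
        intro a c _ _
        exact Subsingleton.elim _ _
      have h2 := (Nat.cast_le (α := ℝ)).2 h1
      rw [Nat.cast_one] at h2
      exact h2.trans (le_of_eq (pow_zero C).symm)
  | succ m ih =>
    intro s hs
    obtain ⟨ih1, ih2⟩ := ih (Fin.tail s) (fun j => hs j.succ)
    have hbm : b ^ m ≤ 1 := pow_le_one₀ hb.le hb1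
    have hbm0 : 0 < b ^ m := by positivity
    refine ⟨?_, ?_⟩
    · intro p p'
      rw [chain_split, chain_split]
      have h1 := sign_mem_smul hK (hs 0) (hx (p 0) (p' 0))
      have h2 := smul_mem_smul (2 * q * (1 - b ^ m)) b (ih1 (Fin.tail p) (Fin.tail p'))
      have h3 := add_mem_smul hK (mul_nonneg (mul_nonneg zero_le_two hq) (by linarith))
        (mul_nonneg hb.le (mul_nonneg (mul_nonneg zero_le_two hq) (by linarith))) h1 h2
      have h4 : 2 * q * (1 - b) + b * (2 * q * (1 - b ^ m)) = 2 * q * (1 - b ^ (m + 1)) := by ring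
      rw [h4] at h3
      have h5 : s 0 • (x (p 0) - x (p' 0)) +
          b • ((∑ j : Fin m, (b ^ (j : ℕ) * Fin.tail s j) • x (Fin.tail p j)) -
            (∑ j : Fin m, (b ^ (j : ℕ) * Fin.tail s j) • x (Fin.tail p' j))) =
          s 0 • x (p 0) + b • (∑ j : Fin m, (b ^ (j : ℕ) * Fin.tail s j) • x (Fin.tail p j)) -
          (s 0 • x (p' 0) +
            b • (∑ j : Fin m, (b ^ (j : ℕ) * Fin.tail s j) • x (Fin.tail p' j))) := by
        rw [smul_sub, smul_sub]
        abel
      rw [← h5]
      exact h3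
    · intro S hS
      set y : (Fin m → ι) → E n := fun p => ∑ j : Fin m, (b ^ (j : ℕ) * Fin.tail s j) • x (p j)
        with hy
      obtain ⟨T, hT⟩ : ∃ T : Set (Fin (m + 1) → ι), T =
        {p | (∑ j : Fin (m + 1), (b ^ (j : ℕ) * s j) • x (p j)) ∈ S} := ⟨_, rfl⟩
      rw [← hT]
      -- the possible first terms
      set S0 : Set (E n) := {z | ∃ u ∈ S, ∃ p : Fin m → ι, z = s 0 • (u - b • y p)} with hS0
      have hss : s 0 * s 0 = 1 := by
        rcases hs 0 with h | h <;> rw [h] <;> norm_num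
      have hS0d : ∀ z ∈ S0, ∀ z' ∈ S0, z - z' ∈ (2 * q * b) • K := by
        rintro _ ⟨u, hu, p, rfl⟩ _ ⟨u', hu', p', rfl⟩
        have h1 := hS u hu u' hu'
        have h2 := neg_mem_smul hK (smul_mem_smul (2 * q * (1 - b ^ m)) b (ih1 p p'))
        have h3 := add_mem_smul hK (mul_nonneg (mul_nonneg zero_le_two hq) (by positivity))
          (mul_nonneg hb.le (mul_nonneg (mul_nonneg zero_le_two hq) (by linarith))) h1 h2
        have h4 : 2 * q * b ^ (m + 1) + b * (2 * q * (1 - b ^ m)) = 2 * q * b := by ring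
        rw [h4] at h3
        have h5 := sign_mem_smul hK (hs 0) h3
        have h6 : s 0 • (u - b • y p) - s 0 • (u' - b • y p') =
            s 0 • (u - u' + -(b • (y p - y p'))) := by
          rw [smul_sub b]
          module
        rw [h6]
        exact h5
      obtain ⟨G, hG⟩ : ∃ G : Set ι, G = {i | x i ∈ S0} := ⟨_, rfl⟩
      have hGC : (G.ncard : ℝ) ≤ C := by
        rw [hG]
        exact hM S0 hS0d
      have hemp : ∀ p ∈ T, p 0 ∈ G := by
        intro p hp
        rw [hT] at hp
        have hp' : (∑ j : Fin (m + 1), (b ^ (j : ℕ) * s j) • x (p j)) ∈ S := hp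
        rw [hG]
        refine ⟨_, hp', Fin.tail p, ?_⟩
        rw [chain_split, hy]
        simp only [add_sub_cancel_right, smul_smul]
        rw [hss, one_smul]
      -- the fibres
      have hfib : ∀ i ∈ G, (({p | p ∈ T ∧ p 0 = i} : Set (Fin (m + 1) → ι)).ncard : ℝ) ≤
          C ^ m := by
        intro i _
        set S1 : Set (E n) := {z | ∃ u ∈ S, z = b⁻¹ • (u - s 0 • x i)} with hS1
        have hS1d : ∀ z ∈ S1, ∀ z' ∈ S1, z - z' ∈ (2 * q * b ^ m) • K := by
          rintro _ ⟨u, hu, rfl⟩ _ ⟨u', hu', rfl⟩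
          have h1 := smul_mem_smul (2 * q * b ^ (m + 1)) b⁻¹ (hS u hu u' hu')
          have h2 : b⁻¹ * (2 * q * b ^ (m + 1)) = 2 * q * b ^ m := by
            rw [pow_succ]
            field_simp
          rw [h2] at h1
          have h3 : b⁻¹ • (u - s 0 • x i) - b⁻¹ • (u' - s 0 • x i) = b⁻¹ • (u - u') := by
            rw [← smul_sub]
            congr 1
            abel
          rw [h3]
          exact h1
        refine le_trans ?_ (ih2 S1 hS1d)
        norm_cast
        refine Set.ncard_le_ncard_of_injOn (fun p => Fin.tail p) ?_ ?_ (Set.toFinite _)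
        · rintro p ⟨hp, hp0⟩
          rw [hT] at hp
          have hp' : (∑ j : Fin (m + 1), (b ^ (j : ℕ) * s j) • x (p j)) ∈ S := hp
          refine ⟨_, hp', ?_⟩
          rw [chain_split, hp0, add_sub_cancel_left, smul_smul, inv_mul_cancel₀ hb.ne', one_smul]
        · rintro p ⟨_, hp⟩ p' ⟨_, hp'⟩ hpq
          rw [← Fin.cons_self_tail p, ← Fin.cons_self_tail p', hp, hp']
          simp only at hpq
          rw [hpq]
      have hcard : T.toFinset.card =
          ∑ i ∈ G.toFinset, (T.toFinset.filter (fun p => p 0 = i)).card := by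
        apply Finset.card_eq_sum_card_fiberwise
        intro p hp
        rw [Finset.mem_coe, Set.mem_toFinset] at hp ⊢
        exact hemp p hp
      have h3 : (T.ncard : ℝ) = ∑ i ∈ G.toFinset,
          (({p | p ∈ T ∧ p 0 = i} : Set (Fin (m + 1) → ι)).ncard : ℝ) := by
        rw [Set.ncard_eq_toFinset_card' T, hcard]
        push_cast
        refine Finset.sum_congr rfl fun i _ => ?_
        rw [Set.ncard_eq_toFinset_card' {p | p ∈ T ∧ p 0 = i}]
        congr 2
        ext p
        simp
      rw [h3]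
      calc ∑ i ∈ G.toFinset, (({p | p ∈ T ∧ p 0 = i} : Set (Fin (m + 1) → ι)).ncard : ℝ)
          ≤ ∑ i ∈ G.toFinset, C ^ m := by
            refine Finset.sum_le_sum fun i hi => ?_
            rw [Set.mem_toFinset] at hi
            exact hfib i hi
        _ = (G.ncard : ℝ) * C ^ m := by
            rw [Finset.sum_const, nsmul_eq_mul, Set.ncard_eq_toFinset_card' G]
        _ ≤ C * C ^ m := mul_le_mul_of_nonneg_right hGC (by positivity)
        _ = C ^ (m + 1) := by rw [pow_succ']

/-- From multiplicities of sets of small diameter to multiplicities of homothets. -/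
lemma mult_homothet {K M : Set (E n)} (hK : SymBody K) {ι : Type} [Fintype ι] {x : ι → E n}
    {q r C : ℝ} (hr : 0 < r) (hx : Mult K x (2 * q * r) C)
    (hMd : ∀ u ∈ M, ∀ v ∈ M, u - v ∈ (2 * q) • K) (u : E n) :
    (({i | ∃ w ∈ M, u = x i + r • w} : Set ι).ncard : ℝ) ≤ C := by
  refine le_trans ?_ (hx {z | ∃ w ∈ M, z = u - r • w} ?_)
  · norm_cast
    refine Set.ncard_le_ncard ?_ (Set.toFinite _)
    rintro i ⟨w, hw, he⟩
    exact ⟨w, hw, by rw [he, add_sub_cancel_right]⟩
  · rintro _ ⟨w, hw, rfl⟩ _ ⟨w', hw', rfl⟩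
    have h1 := neg_mem_smul hK (smul_mem_smul (2 * q) r (hMd w hw w' hw'))
    have h2 : u - r • w - (u - r • w') = -(r • (w - w')) := by
      rw [smul_sub]
      abel
    rw [h2, mul_comm (2 * q) r]
    exact h1

end Pool.Agent.PNR
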