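import Pool.Agent.PNR.Pairs

/-! Corollaries: Euclidean and uniformly non-square difference bodies. -/

set_option autoImplicit false

open MeasureTheory Set
open scoped Pointwise Topology Nat

namespace Pool.Agent.PNR

open Pool.Agent.Rog (E SymBody)

lemma cube_le_exp (x : ℝ) (hx : 0 ≤ x) : x ^ 3 / 6 ≤ Real.exp x := by
  have h := Real.pow_div_factorial_le_exp x hx 3
  have h2 : ((3 ! : ℕ) : ℝ) = 6 := by norm_num [Nat.factorial]
  rwa [h2] at h

lemma fixed_num (j : ℕ) (hj : 1 ≤ j) (ε : ℝ) (hε : 0 < ε) : ∃ c : ℝ, 0 < c ∧ c ≤ 1 / 4 ∧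
    ∃ n0 : ℕ, ∀ n : ℕ, n0 ≤ n → 2 ≤ n ∧
      2 * 2 ^ (3 * (j + j)) * (((3 : ℕ) : ℝ) * ((j + j : ℕ) : ℝ)) *
        Real.log (2 * Real.exp (c * n)) ≤ n ∧
      ((j + j : ℕ) : ℝ) * Real.exp (-(ε * n)) ≤ 1 / (4 * Real.exp (c * n) ^ (3 * (j + j))) ∧
      1 + Real.exp 1 * 2 ^ n / Real.exp (c * n) * (n * Real.log (8 * n + 1)) ≤
        (2 - 2 * (1 - Real.exp (-(c / 2)))) ^ n := by
  have hj0 : (1 : ℝ) ≤ j := by exact_mod_cast hj
  set A : ℝ := 2 * 2 ^ (3 * (j + j)) * (((3 : ℕ) : ℝ) * ((j + j : ℕ) : ℝ)) with hA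
  have hA0 : 0 < A := by
    rw [hA]
    push_cast
    positivity
  set c : ℝ := min (1 / 4) (min (1 / (2 * A)) (ε / (12 * j))) with hc
  have hc0 : 0 < c := by
    rw [hc]
    refine lt_min (by norm_num) (lt_min (by positivity) (by positivity))
  have hc1 : c ≤ 1 / 4 := min_le_left _ _
  have hc2 : c ≤ 1 / (2 * A) := (min_le_right _ _).trans (min_le_left _ _)
  have hc3 : c ≤ ε / (12 * j) := (min_le_right _ _).trans (min_le_right _ _)
  obtain ⟨n0, hn0⟩ := exists_nat_ge (max (2 * A) (max (16 * j / ε) (max 2 (2304 / c ^ 3))))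
  refine ⟨c, hc0, hc1, n0, fun n hn => ?_⟩
  have hnn : ((n0 : ℕ) : ℝ) ≤ n := by exact_mod_cast hn
  have h1 : 2 * A ≤ n := ((le_max_left _ _).trans hn0).trans hnn
  have h2 : 16 * j / ε ≤ n :=
    (((le_max_left _ _).trans (le_max_right _ _)).trans hn0).trans hnn
  have h3 : (2 : ℝ) ≤ n :=
    (((le_max_left _ _).trans ((le_max_right _ _).trans (le_max_right _ _))).trans hn0).trans hnn
  have h4 : 2304 / c ^ 3 ≤ n :=
    (((le_max_right _ _).trans ((le_max_right _ _).trans (le_max_right _ _))).trans hn0).trans hnn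
  have hn2 : 2 ≤ n := by exact_mod_cast h3
  have hnpos : (0 : ℝ) < n := by linarith
  refine ⟨hn2, ?_, ?_, ?_⟩
  · rw [Real.log_mul (by norm_num) (Real.exp_pos _).ne', Real.log_exp, mul_add]
    have h5 : A * (c * n) ≤ n / 2 := by
      have h6 : A * c ≤ 1 / 2 := by
        calc A * c ≤ A * (1 / (2 * A)) := mul_le_mul_of_nonneg_left hc2 hA0.le
          _ = 1 / 2 := by field_simp
      calc A * (c * n) = (A * c) * n := by ring
        _ ≤ 1 / 2 * n := mul_le_mul_of_nonneg_right h6 hnpos.le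
        _ = n / 2 := by ring
    have h6 : A * Real.log 2 ≤ n / 2 := by
      have h7 : Real.log 2 ≤ 1 := by
        have := Real.log_two_lt_d9
        linarith
      have h8 : A * Real.log 2 ≤ A * 1 := mul_le_mul_of_nonneg_left h7 hA0.le
      linarith
    linarith
  · rw [← Real.exp_nat_mul]
    have h5 : ((3 * (j + j) : ℕ) : ℝ) * (c * n) ≤ ε * n / 2 := by
      push_cast
      have h6 : 12 * j * c ≤ ε := by
        have : 12 * (j : ℝ) * c ≤ 12 * j * (ε / (12 * j)) :=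
          mul_le_mul_of_nonneg_left hc3 (by positivity)
        have h7 : 12 * (j : ℝ) * (ε / (12 * j)) = ε := by field_simp
        linarith
      have h7 : 12 * (j : ℝ) * c * n ≤ ε * n := mul_le_mul_of_nonneg_right h6 hnpos.le
      nlinarith
    have h6 : (8 : ℝ) * j ≤ Real.exp (ε * n / 2) := by
      have h7 := Real.add_one_le_exp (ε * n / 2)
      rw [div_le_iff₀ hε] at h2
      linarith
    rw [le_div_iff₀ (by positivity)]
    calc ((j + j : ℕ) : ℝ) * Real.exp (-(ε * n)) * (4 * Real.exp (((3 * (j + j) : ℕ) : ℝ) * (c * n)))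
        = 8 * j * (Real.exp (((3 * (j + j) : ℕ) : ℝ) * (c * n)) * Real.exp (-(ε * n))) := by
          push_cast
          ring
      _ ≤ Real.exp (ε * n / 2) * (Real.exp (ε * n / 2) * Real.exp (-(ε * n))) := by
          gcongr
      _ = 1 := by
          rw [← Real.exp_add, ← Real.exp_add]
          ring_nf
          exact Real.exp_zero
  · have h5 : 16 * Real.exp 1 * n ^ 2 ≤ Real.exp (c * n / 2) := by
      have h6 := cube_le_exp (c * n / 2) (by positivity)
      have h7 := Real.exp_one_lt_d9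
      have h8 : 2304 ≤ n * c ^ 3 := by
        rwa [div_le_iff₀ (by positivity)] at h4
      have h9 : 48 * (n : ℝ) ^ 2 ≤ (c * n / 2) ^ 3 / 6 := by
        have : (c * n / 2) ^ 3 / 6 = (n * c ^ 3) / 48 * (n : ℝ) ^ 2 := by ring
        rw [this]
        refine mul_le_mul_of_nonneg_right ?_ (by positivity)
        linarith
      have h10 : 16 * Real.exp 1 * (n : ℝ) ^ 2 ≤ 48 * (n : ℝ) ^ 2 := by
        refine mul_le_mul_of_nonneg_right ?_ (by positivity)
        linarith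
      linarith
    have h6 : Real.log (8 * n + 1) ≤ 8 * n := by
      have := Real.log_le_sub_one_of_pos (by positivity : (0 : ℝ) < 8 * n + 1)
      linarith
    have h7 : (2 - 2 * (1 - Real.exp (-(c / 2)))) ^ n = 2 ^ n * Real.exp (-(c * n / 2)) := by
      have : 2 - 2 * (1 - Real.exp (-(c / 2))) = 2 * Real.exp (-(c / 2)) := by ring
      rw [this, mul_pow, ← Real.exp_nat_mul]
      congr 2
      ring
    rw [h7]
    have h8 : Real.exp 1 * 2 ^ n / Real.exp (c * n) * (n * Real.log (8 * n + 1)) ≤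
        1 / 2 * (2 ^ n * Real.exp (-(c * n / 2))) := by
      calc Real.exp 1 * 2 ^ n / Real.exp (c * n) * (n * Real.log (8 * n + 1))
          ≤ Real.exp 1 * 2 ^ n / Real.exp (c * n) * (n * (8 * n)) := by gcongr
        _ = 1 / 2 * 2 ^ n * ((16 * Real.exp 1 * n ^ 2) / Real.exp (c * n)) := by ring
        _ ≤ 1 / 2 * 2 ^ n * (Real.exp (c * n / 2) / Real.exp (c * n)) := by gcongr
        _ = 1 / 2 * (2 ^ n * Real.exp (-(c * n / 2))) := by
            rw [← Real.exp_sub]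
            have : c * n / 2 - c * n = -(c * n / 2) := by ring
            rw [this]
            ring
    have h9 : 1 ≤ 1 / 2 * (2 ^ n * Real.exp (-(c * n / 2))) := by
      have h10 : 2 ^ n * Real.exp (-(c * n / 2)) = (2 * Real.exp (-(c / 2))) ^ n := by
        rw [mul_pow, ← Real.exp_nat_mul]
        congr 2
        ring
      rw [h10]
      have h11 : 7 / 4 ≤ 2 * Real.exp (-(c / 2)) := by
        have := Real.add_one_le_exp (-(c / 2))
        linarith
      have h12 : (7 / 4 : ℝ) ^ 2 ≤ (2 * Real.exp (-(c / 2))) ^ n :=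
        (pow_le_pow_right₀ (by norm_num) hn2).trans (pow_le_pow_left₀ (by norm_num) h11 n)
      norm_num at h12 ⊢
      linarith
    linarith

/-- Exponentially few almost isometric simplices. -/
theorem fixed (j : ℕ) (hj : 1 ≤ j) (ε : ℝ) (hε : 0 < ε) : ∃ η : ℝ, 0 < η ∧ η < 1 ∧ ∃ n0 : ℕ,
    ∀ n : ℕ, n0 ≤ n → ∀ F G : Set (E n), Body F → SymBody G →
      volume.real (AS F (j + j) (1 / 2)) ≤
        ((j + j : ℕ) : ℝ) * Real.exp (-(ε * n)) * volume.real F ^ (j + j) →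
      ∃ M : ℕ, (M : ℝ) ≤ (2 - η) ^ n ∧ PartN F G M := by
  obtain ⟨c, hc, hc4, n0, h⟩ := fixed_num j hj ε hε
  refine ⟨2 * (1 - Real.exp (-(c / 2))), ?_, ?_, n0, ?_⟩
  · have : Real.exp (-(c / 2)) < 1 := by
      rw [Real.exp_lt_one_iff]
      linarith
    linarith
  · have := Real.add_one_le_exp (-(c / 2))
    linarith
  · intro n hn F G hF hG hA
    obtain ⟨h1, h2, h3, h4⟩ := h n hn
    have h5 : (1 : ℝ) - 4 / 2 ^ 3 = 1 / 2 := by norm_num
    obtain ⟨M, hM, hP⟩ := top n 3 (j + j) (Real.exp (c * n)) F G h1 (by norm_num) (by omega)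
      (Real.one_le_exp (by positivity)) h2 hF hG (by
        rw [h5]
        refine hA.trans ?_
        exact mul_le_mul_of_nonneg_right h3 (by positivity))
    exact ⟨M, hM.trans h4, hP⟩

theorem corC (R ε : ℝ) (hR : 0 ≤ R) (hε : 0 < ε) : ∃ η : ℝ, 0 < η ∧ η < 1 ∧ ∃ n0 : ℕ,
    ∀ n : ℕ, n0 ≤ n → ∀ F G : Set (E n), Body F → SymBody G →
      ∀ (T : E n →ₗ[ℝ] E n) (v : E n), (∀ x, ‖T x‖ ≤ 1 → ∃ y ∈ F, ∃ z ∈ F, x = y - z) →
      volume.real {x | x ∈ F ∧ R < ‖T x - v‖} ≤ Real.exp (-(ε * n)) * volume.real F →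
      ∃ M : ℕ, (M : ℝ) ≤ (2 - η) ^ n ∧ PartN F G M := by
  obtain ⟨η, hη, hη1, n0, h⟩ := fixed (⌊16 * R ^ 2⌋₊ + 1) (by omega) ε hε
  refine ⟨η, hη, hη1, n0, fun n hn F G hF hG T v hT hV => ?_⟩
  refine h n hn F G hF hG ?_
  refine AS_small hF _ _ {x | x ∈ F ∧ R < ‖T x - v‖} (fun x hx => hx.1) ?_ (by omega) hV
  intro w hw
  refine no_AS_ball hF T v R hR hT _ ?_ w (fun i => ?_)
  · push_cast
    exact Nat.lt_floor_add_one _
  · by_contra hcon
    push Not at hcon
    exact (hw i).2 ⟨(hw i).1, hcon⟩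

theorem corE (N : ℕ) (δ : ℝ) (hN : 1 ≤ N) (hδ : 0 < δ) (hδ1 : δ < 1) : ∃ η : ℝ, 0 < η ∧
    η < 1 ∧ ∃ n0 : ℕ, ∀ n : ℕ, n0 ≤ n → ∀ F G : Set (E n), Body F → SymBody G →
      (∀ z : Fin N → E n, (∀ i, z i ∈ (2 : ℝ) • KK F) → ∃ s : Fin N → ℝ,
        (∀ i, s i = 1 ∨ s i = -1) ∧ ∑ i, s i • z i ∈ (2 * (δ * N)) • KK F) →
      ∃ M : ℕ, (M : ℝ) ≤ (2 - η) ^ n ∧ PartN F G M := by
  obtain ⟨l, hl⟩ := exists_pow_lt_of_lt_one (by norm_num : (0 : ℝ) < 1 / 2) hδ1
  obtain ⟨η, hη, hη1, n0, h⟩ := fixed (N ^ l) (Nat.one_le_pow _ _ hN) 1 one_pos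
  refine ⟨η, hη, hη1, n0, fun n hn F G hF hG hz => ?_⟩
  refine h n hn F G hF hG ?_
  have h1 : AS F (N ^ l + N ^ l) (1 / 2) = ∅ := by
    rw [eq_empty_iff_forall_notMem]
    exact fun w => no_AS_iter N δ hδ hN hz l hl w
  rw [h1, measureReal_empty]
  positivity

lemma big_num : ∃ n0 : ℕ, ∀ n : ℕ, n0 ≤ n → ∀ R : ℝ, 0 ≤ R → R ≤ 1 / 12 * √(Real.log n) →
    ∀ j : ℕ, j = ⌊16 * R ^ 2⌋₊ + 1 → 2 ≤ n ∧ (1 : ℝ) ≤ (n : ℝ) ^ 2 ∧
      2 * 2 ^ (3 * (j + j)) * (((3 : ℕ) : ℝ) * ((j + j : ℕ) : ℝ)) *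
        Real.log (2 * (n : ℝ) ^ 2) ≤ n ∧
      ((j + j : ℕ) : ℝ) * (n : ℝ) ^ (-(200 * (1 + R ^ 2))) ≤
        1 / (4 * ((n : ℝ) ^ 2) ^ (3 * (j + j))) ∧
      1 + Real.exp 1 * 2 ^ n / (n : ℝ) ^ 2 * (n * Real.log (8 * n + 1)) ≤ 2 ^ n - 1 := by
  have hev : ∀ᶠ n : ℕ in Filter.atTop, (70000 : ℝ) ≤ Real.log n :=
    (Real.tendsto_log_atTop.comp tendsto_natCast_atTop_atTop).eventually_ge_atTop 70000
  obtain ⟨n0, hn0⟩ := Filter.eventually_atTop.1 hev
  refine ⟨max n0 2, fun n hn R hR hRL j hj => ?_⟩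
  have hL := hn0 n ((le_max_left _ _).trans hn)
  have hn2 : 2 ≤ n := (le_max_right _ _).trans hn
  have hn2' : (2 : ℝ) ≤ n := by exact_mod_cast hn2
  have hnpos : (0 : ℝ) < n := by linarith
  obtain ⟨L, hLdef⟩ : ∃ L, L = Real.log n := ⟨_, rfl⟩
  rw [← hLdef] at hL hRL
  have hexp : Real.exp L = n := by rw [hLdef, Real.exp_log hnpos]
  have hR2 : R ^ 2 ≤ L / 144 := by
    have h1 : R ^ 2 ≤ (1 / 12 * √L) ^ 2 := pow_le_pow_left₀ hR hRL 2
    rw [mul_pow, Real.sq_sqrt (by linarith)] at h1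
    linarith
  have hjle : (j : ℝ) ≤ 16 * R ^ 2 + 1 := by
    rw [hj]
    push_cast
    have := Nat.floor_le (by positivity : 0 ≤ 16 * R ^ 2)
    linarith
  have hj1 : (1 : ℝ) ≤ j := by
    rw [hj]
    push_cast
    have : (0 : ℝ) ≤ ⌊16 * R ^ 2⌋₊ := Nat.cast_nonneg _
    linarith
  have hlog2 := Real.log_two_lt_d9
  have hlog2' := Real.log_two_gt_d9
  have he3 := Real.exp_one_lt_d9
  refine ⟨hn2, ?_, ?_, ?_, ?_⟩
  · nlinarith
  · have h1 : (2 : ℝ) ^ (3 * (j + j)) ≤ 243 * Real.exp (L / 2) := by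
      have h2 : (2 : ℝ) ^ (3 * (j + j)) = Real.exp (((3 * (j + j) : ℕ) : ℝ) * Real.log 2) := by
        rw [Real.exp_nat_mul, Real.exp_log (by norm_num)]
      have h3 : ((3 * (j + j) : ℕ) : ℝ) * Real.log 2 ≤ L / 2 + 5 := by
        push_cast
        have h4 : 3 * ((j : ℝ) + j) ≤ 2 / 3 * L + 6 := by linarith
        have h5 : 3 * ((j : ℝ) + j) * Real.log 2 ≤ (2 / 3 * L + 6) * (7 / 10) := by
          refine mul_le_mul h4 (by linarith) (by linarith) (by linarith)
        linarith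
      have h6 : Real.exp 5 ≤ 243 := by
        have h7 : Real.exp 5 = Real.exp 1 ^ 5 := by
          rw [← Real.exp_nat_mul]
          norm_num
        rw [h7]
        calc Real.exp 1 ^ 5 ≤ 3 ^ 5 := pow_le_pow_left₀ (Real.exp_pos _).le (by linarith) 5
          _ = 243 := by norm_num
      calc (2 : ℝ) ^ (3 * (j + j)) ≤ Real.exp (L / 2 + 5) := by
            rw [h2]
            exact Real.exp_le_exp.2 h3
        _ = Real.exp 5 * Real.exp (L / 2) := by
            rw [← Real.exp_add]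
            congr 1
            ring
        _ ≤ 243 * Real.exp (L / 2) := mul_le_mul_of_nonneg_right h6 (Real.exp_pos _).le
    have h2 : ((3 : ℕ) : ℝ) * ((j + j : ℕ) : ℝ) ≤ L := by
      push_cast
      linarith
    have h3 : Real.log (2 * (n : ℝ) ^ 2) ≤ 3 * L := by
      rw [Real.log_mul (by norm_num) (by positivity), Real.log_pow, ← hLdef]
      push_cast
      linarith
    have h3' : 0 ≤ Real.log (2 * (n : ℝ) ^ 2) := Real.log_nonneg (by nlinarith)
    have h4 : 1458 * L ^ 2 ≤ Real.exp (L / 2) := by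
      have h5 := cube_le_exp (L / 2) (by linarith)
      have h6 : (L / 2) ^ 3 / 6 = L / 48 * L ^ 2 := by ring
      rw [h6] at h5
      refine le_trans ?_ h5
      refine mul_le_mul_of_nonneg_right (by linarith) (by positivity)
    calc 2 * 2 ^ (3 * (j + j)) * (((3 : ℕ) : ℝ) * ((j + j : ℕ) : ℝ)) * Real.log (2 * (n : ℝ) ^ 2)
        ≤ 2 * (243 * Real.exp (L / 2)) * L * (3 * L) := by
          gcongr
      _ = (1458 * L ^ 2) * Real.exp (L / 2) := by ring
      _ ≤ Real.exp (L / 2) * Real.exp (L / 2) :=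
          mul_le_mul_of_nonneg_right h4 (Real.exp_pos _).le
      _ = n := by
          rw [← Real.exp_add, ← hexp]
          congr 1
          ring
  · rw [le_div_iff₀ (by positivity)]
    have h1 : ((n : ℝ) ^ 2) ^ (3 * (j + j)) = Real.exp (12 * j * L) := by
      rw [← pow_mul, ← hexp, ← Real.exp_nat_mul]
      congr 1
      push_cast
      ring
    have h2 : (n : ℝ) ^ (-(200 * (1 + R ^ 2))) = Real.exp (-(200 * (1 + R ^ 2)) * L) := by
      rw [Real.rpow_def_of_pos hnpos, ← hLdef]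
      congr 1
      ring
    have h3 : 8 * (j : ℝ) ≤ Real.exp L := by
      have := Real.add_one_le_exp L
      linarith
    rw [h1, h2]
    calc ((j + j : ℕ) : ℝ) * Real.exp (-(200 * (1 + R ^ 2)) * L) * (4 * Real.exp (12 * j * L))
        = 8 * j * (Real.exp (-(200 * (1 + R ^ 2)) * L) * Real.exp (12 * j * L)) := by
          push_cast
          ring
      _ ≤ Real.exp L * (Real.exp (-(200 * (1 + R ^ 2)) * L) * Real.exp (12 * j * L)) := by
          gcongr
      _ = Real.exp (L + (-(200 * (1 + R ^ 2)) * L + 12 * j * L)) := by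
          rw [← Real.exp_add, ← Real.exp_add]
      _ ≤ 1 := by
          rw [Real.exp_le_one_iff]
          have h4 : 12 * (j : ℝ) * L ≤ 12 * (16 * R ^ 2 + 1) * L := by
            gcongr
          have h5 : 0 ≤ R ^ 2 * L := by positivity
          nlinarith
  · have h1 : Real.log (8 * n + 1) ≤ 2 * L := by
      have h2 : Real.log (8 * n + 1) ≤ Real.log (n ^ 2) := by
        refine Real.log_le_log (by positivity) ?_
        have h3 : (9 : ℝ) ≤ n := by
          rw [← hexp]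
          have := Real.add_one_le_exp L
          linarith
        nlinarith
      rw [Real.log_pow, ← hLdef] at h2
      push_cast at h2
      exact h2
    have h2 : 24 * L ≤ n := by
      rw [← hexp]
      have h3 := cube_le_exp L (by linarith)
      refine le_trans ?_ h3
      have h4 : L ^ 3 / 6 = L ^ 2 / 6 * L := by ring
      rw [h4]
      refine mul_le_mul_of_nonneg_right ?_ (by linarith)
      nlinarith
    have h3 : Real.exp 1 * 2 ^ n / (n : ℝ) ^ 2 * (n * Real.log (8 * n + 1)) ≤ 2 ^ n / 4 := by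
      calc Real.exp 1 * 2 ^ n / (n : ℝ) ^ 2 * (n * Real.log (8 * n + 1))
          ≤ 3 * 2 ^ n / (n : ℝ) ^ 2 * (n * (2 * L)) := by
            have h4 : 0 ≤ Real.log (8 * n + 1) := Real.log_nonneg (by linarith)
            refine mul_le_mul ?_ (mul_le_mul_of_nonneg_left h1 hnpos.le)
              (mul_nonneg hnpos.le h4) (by positivity)
            refine div_le_div_of_nonneg_right ?_ (by positivity)
            exact mul_le_mul_of_nonneg_right (by linarith) (by positivity)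
        _ = 2 ^ n * (6 * L / n) := by
            field_simp
            ring
        _ ≤ 2 ^ n * (1 / 4) := by
            refine mul_le_mul_of_nonneg_left ?_ (by positivity)
            rw [div_le_iff₀ hnpos]
            linarith
        _ = 2 ^ n / 4 := by ring
    have h4 : (4 : ℝ) ≤ 2 ^ n := by
      calc (4 : ℝ) = 2 ^ 2 := by norm_num
        _ ≤ 2 ^ n := pow_le_pow_right₀ (by norm_num) hn2
    linarith

theorem corB : ∃ n0 : ℕ, ∀ n : ℕ, n0 ≤ n → ∀ F G : Set (E n), Body F → SymBody G →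
    ∀ (T : E n →ₗ[ℝ] E n) (v : E n) (R : ℝ), 0 ≤ R → R ≤ 1 / 12 * √(Real.log n) →
      (∀ x, ‖T x‖ ≤ 1 → ∃ y ∈ F, ∃ z ∈ F, x = y - z) →
      volume.real {x | x ∈ F ∧ R < ‖T x - v‖} ≤
        (n : ℝ) ^ (-(200 * (1 + R ^ 2))) * volume.real F →
      PartN F G (2 ^ n - 1) := by
  obtain ⟨n0, h⟩ := big_num
  refine ⟨n0, fun n hn F G hF hG T v R hR hRL hT hV => ?_⟩
  obtain ⟨h1, h2, h3, h4, h5⟩ := h n hn R hR hRL _ rfl
  obtain ⟨j, hj⟩ : ∃ j, j = ⌊16 * R ^ 2⌋₊ + 1 := ⟨_, rfl⟩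
  rw [← hj] at h3 h4
  have h6 : (1 : ℝ) - 4 / 2 ^ 3 = 1 / 2 := by norm_num
  obtain ⟨M, hM, hP⟩ := top n 3 (j + j) ((n : ℝ) ^ 2) F G h1 (by norm_num) (by omega)
    h2 h3 hF hG (by
      rw [h6]
      refine (AS_small hF _ _ {x | x ∈ F ∧ R < ‖T x - v‖} (fun x hx => hx.1) ?_ (by omega)
        hV).trans ?_
      · intro w hw
        refine no_AS_ball hF T v R hR hT _ ?_ w (fun i => ?_)
        · rw [hj]
          push_cast
          exact Nat.lt_floor_add_one _
        · by_contra hcon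
          push Not at hcon
          exact (hw i).2 ⟨(hw i).1, hcon⟩
      · exact mul_le_mul_of_nonneg_right h4 (by positivity))
  refine PartN_mono hP ?_
  have h7 : ((M : ℕ) : ℝ) ≤ ((2 ^ n - 1 : ℕ) : ℝ) := by
    rw [Nat.cast_sub (Nat.one_le_two_pow)]
    push_cast
    exact hM.trans h5
  exact_mod_cast h7

end Pool.Agent.PNR
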