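import Pool.Agent.PNR.Vol
import Pool.Agent.HRP.FUN

/-! The separating functional of an end point of a chain. -/

set_option autoImplicit false

open MeasureTheory Set
open scoped Pointwise Topology

namespace Pool.Agent.PNR

open Pool.Agent.Rog (E SymBody)

variable {n : ℕ} {F : Set (E n)}

lemma Tset_convex (hF : Body F) (q b t : ℝ) (m : ℕ) (o : E n) (s : Fin m → ℝ) :
    Convex ℝ (Tset F q b t m o s) := by
  rintro _ ⟨z, hz, rfl⟩ _ ⟨z', hz', rfl⟩ α β hα hβ hαβ
  refine ⟨α • z + β • z', Aset_convex hF q b m s hz hz' hα hβ hαβ, ?_⟩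
  simp only
  generalize (∑ j : Fin m, (b ^ (j : ℕ) * s j * (q * (1 - b))) • o) = y
  obtain rfl : β = 1 - α := by linarith
  module

/-- a functional which is at most `h` on `K` is at most `h` times the gauge -/
lemma fun_le_gauge {K : Set (E n)} (hK : SymBody K) (g : E n →L[ℝ] ℝ) {h : ℝ} (hh : 0 < h)
    (hg : ∀ k ∈ K, g k ≤ h) (z : E n) : g z ≤ h * gauge K z := by
  by_contra hcon
  push Not at hcon
  have h1 : gauge K z < g z / h := by
    rw [lt_div_iff₀ hh]
    linarith
  obtain ⟨ρ, hρ, hρt, k, hk, hkz⟩ := exists_lt_of_gauge_lt (Pool.Agent.HRP.FUN_.absorb hK) h1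
  have h2 : g z ≤ ρ * h := by
    rw [← hkz]
    simp only [map_smul, smul_eq_mul]
    exact mul_le_mul_of_nonneg_left (hg k hk) hρ.le
  rw [lt_div_iff₀ hh] at hρt
  linarith

theorem fun2 (hF : Body F) (q b t : ℝ) (m : ℕ) (o : E n) (ho : o ∈ F) (hq : 0 < q) (hb : 0 < b)
    (hb1 : b < 1) (ht1 : t ≤ 1) (x u : Fin m → E n) (w : E n) (c s : Fin m → ℝ)
    (hx : ∀ j, x j ∈ (q * (1 - b)) • F) (hu : ∀ j, u j ∈ q • F) (hw : w ∈ q • KK F)
    (hc : ∑ i, c i = 0) (hs : ∀ j, s j = if 0 ≤ c j then 1 else -1)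
    (hv : (∑ j : Fin m, (b ^ (j : ℕ) * s j) • x j) + b ^ m • w ∉ Tset F q b t m o s) :
    (1 - 2 * b - 2 * (1 - t) / b ^ (m - 1)) * ∑ i, |c i| ≤
      gauge (KK F) (∑ i, c i • (q⁻¹ • (x i + b • u i))) := by
  classical
  have hK := KK_sym hF
  obtain ⟨g, r, hg1, hg2⟩ := geometric_hahn_banach_closed_point (Tset_convex hF q b t m o s)
    (Tset_compact hF q b t m o s).isClosed hv
  obtain ⟨f1, hf1, hf1m⟩ := hF.cpt.exists_isMaxOn hF.nonempty g.continuous.continuousOn
  obtain ⟨f2, hf2, hf2m⟩ := hF.cpt.exists_isMinOn hF.nonempty g.continuous.continuousOn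
  have hmax : ∀ y ∈ F, g y ≤ g f1 := fun y hy => hf1m hy
  have hmin : ∀ y ∈ F, g f2 ≤ g y := fun y hy => hf2m hy
  set h : ℝ := (g f1 - g f2) / 2 with hh
  set mid : ℝ := (g f1 + g f2) / 2 with hmid
  have hh0 : 0 ≤ h := by
    have := hmax f2 hf2
    rw [hh]
    linarith
  have hss : ∀ j, s j = 1 ∨ s j = -1 := by
    intro j
    rw [hs j]
    split_ifs
    · exact Or.inl rfl
    · exact Or.inr rfl
  have hup : ∀ j, ∀ y ∈ F, s j * (g y - mid) ≤ h := by
    intro j y hy
    have h1 := hmax y hy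
    have h2 := hmin y hy
    rcases hss j with hj | hj
    · rw [hj, hh, hmid]
      linarith
    · rw [hj, hh, hmid]
      linarith
  have hlo : ∀ j, ∀ y ∈ F, -h ≤ s j * (g y - mid) := by
    intro j y hy
    have h1 := hmax y hy
    have h2 := hmin y hy
    rcases hss j with hj | hj
    · rw [hj, hh, hmid]
      linarith
    · rw [hj, hh, hmid]
      linarith
  have hKg : ∀ k ∈ KK F, g k ≤ h := by
    rintro _ ⟨y, hy, y', hy', rfl⟩
    rw [map_smul, map_sub, smul_eq_mul, hh]
    have h1 := hmax y hy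
    have h2 := hmin y' hy'
    linarith
  choose x' hx' hxx using hx
  choose u' hu' huu using hu
  obtain ⟨w', hw', hww⟩ := hw
  simp only at hxx huu hww
  set fj : Fin m → E n := fun j => if s j = 1 then f1 else f2 with hfj
  have hfjF : ∀ j, fj j ∈ F := by
    intro j
    rw [hfj]
    simp only
    split_ifs
    · exact hf1
    · exact hf2
  have hfjg : ∀ j, s j * g (fj j) = s j * mid + h := by
    intro j
    rw [hfj]
    simp only
    rcases hss j with hj | hj
    · rw [if_pos hj, hj, hh, hmid]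
      ring
    · have : s j ≠ 1 := by rw [hj]; norm_num
      rw [if_neg this, hj, hh, hmid]
      ring
  set w1 : E n := (1 / 2 : ℝ) • (f1 - f2) with hw1
  have hw1K : w1 ∈ KK F := ⟨f1, hf1, f2, hf2, rfl⟩
  have hw1g : g w1 = h := by
    rw [hw1, map_smul, map_sub, smul_eq_mul, hh]
    ring
  set Bj : Fin m → ℝ := fun j => b ^ (j : ℕ) * (q * (1 - b)) with hBj
  have hBj0 : ∀ j, 0 ≤ Bj j := fun j => by
    have : 0 ≤ 1 - b := by linarith
    rw [hBj]
    positivity
  have hBsum : ∑ j, Bj j = q * (1 - b ^ m) := by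
    rw [← geom_b, Finset.sum_mul, Finset.mul_sum]
    refine Finset.sum_congr rfl fun j _ => ?_
    rw [hBj]
    ring
  -- the comparison point
  have ha : (1 - t) • (∑ j : Fin m, (b ^ (j : ℕ) * s j * (q * (1 - b))) • o) +
      t • ((∑ j : Fin m, (b ^ (j : ℕ) * s j * (q * (1 - b))) • fj j) + (b ^ m * q) • w1) ∈
      Tset F q b t m o s := ⟨_, ⟨fj, hfjF, w1, hw1K, rfl⟩, rfl⟩
  have hlt := (hg1 _ ha).trans hg2
  have hga : g ((1 - t) • (∑ j : Fin m, (b ^ (j : ℕ) * s j * (q * (1 - b))) • o) +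
      t • ((∑ j : Fin m, (b ^ (j : ℕ) * s j * (q * (1 - b))) • fj j) + (b ^ m * q) • w1)) =
      (1 - t) * (∑ j, Bj j * (s j * g o)) + t * ((∑ j, Bj j * (s j * mid + h)) +
        b ^ m * q * h) := by
    simp only [map_add, map_smul, map_sum, smul_eq_mul, hw1g]
    congr 2
    · refine Finset.sum_congr rfl fun j _ => ?_
      rw [hBj]
      ring
    · congr 1
      refine Finset.sum_congr rfl fun j _ => ?_
      rw [← hfjg j, hBj]
      ring
  set e : Fin m → ℝ := fun j => h - s j * (g (x' j) - mid) with he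
  have he0 : ∀ j, 0 ≤ e j := fun j => sub_nonneg.2 (hup j _ (hx' j))
  have hgv : g ((∑ j : Fin m, (b ^ (j : ℕ) * s j) • x j) + b ^ m • w) =
      (∑ j, Bj j * (s j * mid + h - e j)) + b ^ m * q * g w' := by
    simp only [map_add, map_smul, map_sum, smul_eq_mul]
    congr 1
    · refine Finset.sum_congr rfl fun j _ => ?_
      rw [← hxx j, map_smul, smul_eq_mul, he, hBj]
      ring
    · rw [← hww, map_smul, smul_eq_mul]
      ring
  rw [hga, hgv] at hlt
  have hsumE : ∑ j, Bj j * e j ≤ 2 * q * (1 - t) * h := by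
    have h1 : (∑ j, Bj j * (s j * mid + h - e j)) = (∑ j, Bj j * (s j * mid + h)) -
        ∑ j, Bj j * e j := by
      rw [← Finset.sum_sub_distrib]
      refine Finset.sum_congr rfl fun j _ => ?_
      ring
    have h2 : ∑ j, Bj j * (s j * mid + h) - ∑ j, Bj j * (s j * g o) ≤ ∑ j, Bj j * (2 * h) := by
      rw [← Finset.sum_sub_distrib]
      refine Finset.sum_le_sum fun j _ => ?_
      rw [← mul_sub]
      refine mul_le_mul_of_nonneg_left ?_ (hBj0 j)
      have := hlo j o ho
      linarith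
    have h3 : ∑ j, Bj j * (2 * h) = q * (1 - b ^ m) * (2 * h) := by
      rw [← Finset.sum_mul, hBsum]
    have h4 : b ^ m * q * g w' ≤ b ^ m * q * h :=
      mul_le_mul_of_nonneg_left (hKg w' hw') (by positivity)
    have h5 : (1 - t) * (∑ j, Bj j * (s j * mid + h) - ∑ j, Bj j * (s j * g o)) ≤
        (1 - t) * (q * (1 - b ^ m) * (2 * h)) :=
      mul_le_mul_of_nonneg_left (h2.trans h3.le) (by linarith)
    have h6 : 0 ≤ (1 - t) * (b ^ m * q * h) :=
      mul_nonneg (by linarith) (mul_nonneg (by positivity) hh0)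
    nlinarith
  have hhpos : 0 < h := by
    rcases hh0.lt_or_eq with hp | hp
    · exact hp
    exfalso
    have h1 : (∑ j, Bj j * (s j * mid + h - e j)) ≤ ∑ j, Bj j * (s j * mid + h) := by
      refine Finset.sum_le_sum fun j _ => mul_le_mul_of_nonneg_left ?_ (hBj0 j)
      have := he0 j
      linarith
    have h2 : ∀ j, s j * g o = s j * mid + h := by
      intro j
      have h3 := hup j o ho
      have h4 := hlo j o ho
      rw [← hp] at h3 h4 ⊢
      linarith
    simp only [h2] at hlt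
    have h4 : b ^ m * q * g w' ≤ b ^ m * q * h :=
      mul_le_mul_of_nonneg_left (hKg w' hw') (by positivity)
    rw [← hp] at hlt h1 h4
    nlinarith
  -- the deficits
  have hej : ∀ j, (1 - b) * e j ≤ 2 * (1 - t) / b ^ (m - 1) * h := by
    intro j
    have hbm : 0 < b ^ (m - 1) := by positivity
    have h1 : Bj j * e j ≤ 2 * q * (1 - t) * h :=
      (Finset.single_le_sum (f := fun j => Bj j * e j)
        (fun i _ => mul_nonneg (hBj0 i) (he0 i)) (Finset.mem_univ j)).trans hsumE
    have h2 : b ^ (m - 1) ≤ b ^ (j : ℕ) :=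
      pow_le_pow_of_le_one hb.le hb1.le (by have := j.2; omega)
    have h3 : b ^ (m - 1) * ((1 - b) * e j) ≤ 2 * (1 - t) * h := by
      have h4 : b ^ (m - 1) * (q * ((1 - b) * e j)) ≤ b ^ (j : ℕ) * (q * ((1 - b) * e j)) :=
        mul_le_mul_of_nonneg_right h2 (mul_nonneg hq.le (mul_nonneg (by linarith) (he0 j)))
      have h5 : b ^ (j : ℕ) * (q * ((1 - b) * e j)) = Bj j * e j := by
        rw [hBj]
        ring
      rw [h5] at h4
      have h6 : q * (b ^ (m - 1) * ((1 - b) * e j)) ≤ q * (2 * (1 - t) * h) := by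
        calc q * (b ^ (m - 1) * ((1 - b) * e j)) = b ^ (m - 1) * (q * ((1 - b) * e j)) := by ring
          _ ≤ Bj j * e j := h4
          _ ≤ 2 * q * (1 - t) * h := h1
          _ = q * (2 * (1 - t) * h) := by ring
      exact le_of_mul_le_mul_left h6 hq
    rw [div_mul_eq_mul_div, le_div_iff₀ hbm]
    linarith
  -- the value at the combination
  have hcs : ∀ j, c j = |c j| * s j := by
    intro j
    rw [hs j]
    split_ifs with h0
    · rw [abs_of_nonneg h0, mul_one]
    · rw [abs_of_neg (not_le.1 h0)]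
      ring
  have hval : g (∑ i, c i • (q⁻¹ • (x i + b • u i))) =
      ∑ i, |c i| * ((1 - b) * (s i * (g (x' i) - mid)) + b * (s i * (g (u' i) - mid))) := by
    have h1 : ∀ i, g (c i • (q⁻¹ • (x i + b • u i))) =
        |c i| * ((1 - b) * (s i * (g (x' i) - mid)) + b * (s i * (g (u' i) - mid))) +
          c i * mid := by
      intro i
      rw [← hxx i, ← huu i]
      simp only [map_smul, map_add, smul_eq_mul]
      have h2 : q⁻¹ * (q * (1 - b) * g (x' i) + b * (q * g (u' i))) =
          (1 - b) * g (x' i) + b * g (u' i) := by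
        field_simp
      rw [h2]
      have h3 := hcs i
      calc c i * ((1 - b) * g (x' i) + b * g (u' i))
          = c i * ((1 - b) * (g (x' i) - mid) + b * (g (u' i) - mid)) + c i * mid := by ring
        _ = |c i| * s i * ((1 - b) * (g (x' i) - mid) + b * (g (u' i) - mid)) + c i * mid := by
            rw [← h3]
        _ = _ := by ring
    rw [map_sum, Finset.sum_congr rfl fun i _ => h1 i, Finset.sum_add_distrib, ← Finset.sum_mul,
      hc, zero_mul, add_zero]
  have hfin := fun_le_gauge hK g hhpos hKg (∑ i, c i • (q⁻¹ • (x i + b • u i)))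
  rw [hval] at hfin
  have hlow : h * ((1 - 2 * b - 2 * (1 - t) / b ^ (m - 1)) * ∑ i, |c i|) ≤
      ∑ i, |c i| * ((1 - b) * (s i * (g (x' i) - mid)) + b * (s i * (g (u' i) - mid))) := by
    rw [← mul_assoc, Finset.mul_sum]
    refine Finset.sum_le_sum fun i _ => ?_
    rw [mul_comm (|c i|)]
    refine mul_le_mul_of_nonneg_right ?_ (abs_nonneg _)
    have h1 := hej i
    have h2 : b * (-h) ≤ b * (s i * (g (u' i) - mid)) :=
      mul_le_mul_of_nonneg_left (hlo i _ (hu' i)) hb.le
    have h3 : s i * (g (x' i) - mid) = h - e i := by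
      rw [he]
      ring
    rw [h3]
    nlinarith
  exact le_of_mul_le_mul_left (hlow.trans hfin) hhpos

end Pool.Agent.PNR
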