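import Pool.Agent.PNR.Bad
import Pool.Agent.PNR.Fun
import Pool.Agent.HRP.TOP
import Pool.Agent.HRP.CPT

/-! The counting argument. -/

set_option autoImplicit false

open MeasureTheory Set
open scoped Pointwise Topology

namespace Pool.Agent.PNR

open Pool.Agent.Rog (E SymBody)
open Pool.Agent.HRP.TOP_ (geom sg sg_spec)

variable {n : ℕ} {F : Set (E n)}

lemma comb (hF : Convex ℝ F) {m : ℕ} (c : Fin m → ℝ) (hc : ∀ j, 0 ≤ c j) (hs : 0 < ∑ j, c j)
    (v : Fin m → E n) (hv : ∀ j, v j ∈ F) : ∑ j, c j • v j ∈ (∑ j, c j) • F := by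
  refine ⟨∑ j, (c j / ∑ i, c i) • v j, ?_, ?_⟩
  · refine hF.sum_mem (fun j _ => div_nonneg (hc j) hs.le) ?_ (fun j _ => hv j)
    rw [← Finset.sum_div, div_self hs.ne']
  · simp only
    rw [Finset.smul_sum]
    refine Finset.sum_congr rfl fun j _ => ?_
    rw [smul_smul, mul_div_cancel₀ _ hs.ne']

lemma AS_compact (hF : Body F) (m : ℕ) (r : ℝ) : IsCompact (AS F m r) := by
  have hg : Continuous (gauge (KK F)) :=
    continuous_gauge (KK_sym hF).cvx (Pool.Agent.HRP.CPT_.nhds_zero (KK_sym hF))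
  have h1 : IsCompact {w : Fin m → E n | ∀ i, w i ∈ F} := by
    have h := isCompact_univ_pi (s := fun _ : Fin m => F) (fun _ => hF.cpt)
    have e : (univ.pi fun _ : Fin m => F) = {w : Fin m → E n | ∀ i, w i ∈ F} := by
      ext w
      simp
    rwa [e] at h
  have h2 : IsClosed {w : Fin m → E n | ∀ c : Fin m → ℝ, ∑ i, c i = 0 →
      r * ∑ i, |c i| ≤ gauge (KK F) (∑ i, c i • w i)} := by
    have e : {w : Fin m → E n | ∀ c : Fin m → ℝ, ∑ i, c i = 0 →
        r * ∑ i, |c i| ≤ gauge (KK F) (∑ i, c i • w i)} = ⋂ c : Fin m → ℝ,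
          ⋂ _ : (∑ i, c i = 0),
          {w : Fin m → E n | r * ∑ i, |c i| ≤ gauge (KK F) (∑ i, c i • w i)} := by
      ext w
      simp
    rw [e]
    refine isClosed_iInter fun s => isClosed_iInter fun _ => ?_
    refine isClosed_le continuous_const (hg.comp ?_)
    fun_prop
  have h3 : AS F m r = {w : Fin m → E n | ∀ i, w i ∈ F} ∩ {w : Fin m → E n |
      ∀ c : Fin m → ℝ, ∑ i, c i = 0 →
        r * ∑ i, |c i| ≤ gauge (KK F) (∑ i, c i • w i)} := rfl
  rw [h3]
  exact h1.inter_right h2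

lemma core (n k m : ℕ) (Θ q a b t : ℝ) (F : Set (E n)) (hn : 2 ≤ n) (hk : 2 ≤ k) (hm : 1 ≤ m)
    (hΘ : 1 ≤ Θ) (hF : Body F)
    (hA : volume.real (AS F m (1 - 4 / 2 ^ k)) ≤ 1 / (4 * Θ ^ (k * m)) * volume.real F ^ m)
    (ha : a = q / (1 + q)) (hb : b = a ^ k) (hq : 1 / 2 ≤ q) (hq1 : q < 1) (ha0 : 0 < a)
    (ha1 : a < 1 / 2) (ht0 : 0 ≤ t) (ht1 : t ≤ 1)
    (htd : t ^ n * (2 * Θ) ^ (k * m) ≤ 1) (hb1 : b < 1 / 2)
    (hnum : (1 : ℝ) - 4 / 2 ^ k ≤ 1 - 2 * b - 2 * (1 - t) / b ^ (m - 1))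
    (U : Finset (E n)) (hU : U.Nonempty) (hUF : ∀ x ∈ U, x ∈ F)
    (hcount : ∀ S : Set (E n), (∀ x ∈ S, ∀ y ∈ S, x - y ∈ (2 * q) • KK F) →
      (({x | x ∈ U ∧ x ∈ S} : Set (E n)).ncard : ℝ) ≤ Θ * a ^ n * U.card) : False := by
  classical
  have hK := KK_sym hF
  have hq0 : 0 < q := by linarith
  have hb0 : 0 < b := by rw [hb]; positivity
  obtain ⟨o, ho⟩ := hF.nonempty
  have hFpos : 0 < volume.real F := vol_pos hF.cpt hF.int
  set M : Set (E n) := q • KK F with hM
  have hMc : IsCompact M := hK.cpt.smul q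
  have hMvol : volume.real M = q ^ n * volume.real (KK F) :=
    Pool.Agent.HRP.BAD_.vol_smul (KK F) q hq0.le
  have hMpos : 0 < volume.real M := by
    rw [hMvol]
    have := vol_pos hK.cpt hK.int
    positivity
  set Z : ℝ := (U.card : ℝ) with hZ
  have hZ0 : 0 < Z := by
    rw [hZ]
    exact_mod_cast hU.card_pos
  set C : ℝ := Θ * a ^ n * Z with hC
  have hC0 : 0 ≤ C := by positivity
  have haq : q * (1 - a) = a := by
    rw [ha]
    have : 1 + q ≠ 0 := by positivity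
    field_simp
    ring
  -- first chain
  have hx1 : ∀ i j : U, a • (i : E n) - a • (j : E n) ∈ (2 * q * (1 - a)) • KK F := by
    intro i j
    have h1 := smul_mem_smul 2 a (sub_mem F (hUF i i.2) (hUF j j.2))
    have h2 : a * 2 = 2 * q * (1 - a) := by
      rw [mul_assoc, haq]
      ring
    rw [h2, smul_sub] at h1
    exact h1
  have hM1 : Mult (KK F) (fun i : U => a • (i : E n)) (2 * q * a) C := by
    intro S hS
    have h1 := hcount {z | ∃ y ∈ S, z = a⁻¹ • y} (by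
      rintro _ ⟨y, hy, rfl⟩ _ ⟨y', hy', rfl⟩
      have h2 := smul_mem_smul (2 * q * a) a⁻¹ (hS y hy y' hy')
      have h3 : a⁻¹ * (2 * q * a) = 2 * q := by
        field_simp
      rw [h3, smul_sub] at h2
      exact h2)
    refine le_trans ?_ h1
    have h4 : (({i | a • (i : E n) ∈ S} : Set U).ncard) =
        (((fun i : U => (i : E n)) '' {i | a • (i : E n) ∈ S})).ncard :=
      (Set.ncard_image_of_injective _ Subtype.val_injective).symm
    rw [h4]
    refine Nat.cast_le.mpr (Set.ncard_le_ncard ?_ ?_)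
    · rintro _ ⟨i, hi, rfl⟩
      exact ⟨i.2, _, hi, by rw [smul_smul, inv_mul_cancel₀ ha0.ne', one_smul]⟩
    · exact U.finite_toSet.subset (fun x hx => hx.1)
  obtain ⟨hB1, hB2⟩ := chain hK (fun i : U => a • (i : E n)) q a C hq0.le ha0 (by linarith) hC0
    hx1 hM1 k (fun _ => 1) (fun _ => Or.inl rfl)
  set B : (Fin k → U) → E n := fun p => ∑ j : Fin k, (a ^ (j : ℕ) * 1) • (a • (p j : E n))
    with hB
  rw [← hb] at hB1 hB2
  have hbq : 0 < q * (1 - b) := mul_pos hq0 (by linarith)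
  have hBF : ∀ p : Fin k → U, B p ∈ (q * (1 - b)) • F := by
    intro p
    have hg := geom hq0 ha k
    rw [← hb] at hg
    have h1 := comb hF.cvx (fun j : Fin k => a ^ (j : ℕ) * a) (fun j => by positivity)
      (by rw [hg]; exact hbq) (fun j => (p j : E n)) (fun j => hUF _ (p j).2)
    rw [hg] at h1
    have h2 : B p = ∑ j : Fin k, (a ^ (j : ℕ) * a) • (p j : E n) := by
      rw [hB]
      refine Finset.sum_congr rfl fun j _ => ?_
      rw [smul_smul, mul_one]
    rw [h2]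
    exact h1
  -- second chain
  set cc : (Fin m → Bool) → (Fin m → Fin k → U) → E n := fun σ p =>
    ∑ j : Fin m, (b ^ (j : ℕ) * sg (σ j)) • B (p j) with hcc
  have h2 : ∀ σ : Fin m → Bool, Mult (KK F) (cc σ) (2 * q * b ^ m) ((C ^ k) ^ m) := fun σ =>
    (chain hK B q b (C ^ k) hq0.le hb0 (by linarith) (by positivity) hB1 hB2 m
      (fun j => sg (σ j)) (fun j => sg_spec _)).2
  have hMd : ∀ u ∈ M, ∀ v ∈ M, u - v ∈ (2 * q) • KK F := by
    rintro _ hu _ hv
    have h3 := add_mem_smul hK hq0.le hq0.le hu (neg_mem_smul hK hv)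
    rw [← sub_eq_add_neg] at h3
    have h4 : q + q = 2 * q := by ring
    rwa [h4] at h3
  have hbad := bad n M (Fin m → Fin k → U) (Fin m → Bool) cc
    (fun σ => Tset F q b t m o (fun j => sg (σ j))) (b ^ m) t ((C ^ k) ^ m) hMc hMpos
    (by positivity) (by positivity) (fun σ => Tset_compact hF q b t m o _)
    (fun σ => Tset_vol (by omega) hF hq0.le hb0.le (by linarith) ht0 m o _ (fun j => sg_spec _))
    (fun σ u => mult_homothet hK (by positivity) (h2 σ) hMd u)
  -- products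
  set r : ℝ := (1 : ℝ) - 4 / 2 ^ k with hr
  have hmulF : ∀ u : E n, (({p | ∃ w ∈ F, u = q⁻¹ • B p + b • w} : Set (Fin k → U)).ncard : ℝ) ≤
      C ^ k := by
    intro u
    have hqFd : ∀ u ∈ q • F, ∀ v ∈ q • F, u - v ∈ (2 * q) • KK F := by
      rintro _ ⟨y, hy, rfl⟩ _ ⟨y', hy', rfl⟩
      have h3 := smul_mem_smul 2 q (sub_mem F hy hy')
      rw [smul_sub, mul_comm q 2] at h3
      exact h3
    refine le_trans ?_ (mult_homothet hK hb0 hB2 hqFd (q • u))
    refine Nat.cast_le.mpr (Set.ncard_le_ncard ?_ (Set.toFinite _))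
    rintro p ⟨w, hw, hu⟩
    refine ⟨q • w, ⟨w, hw, rfl⟩, ?_⟩
    rw [hu, smul_add, smul_smul, mul_inv_cancel₀ hq0.ne', one_smul, smul_comm q b]
  have hgood := Pool.Agent.HRP.p_PRD n m F (Fin k → U) (fun p => q⁻¹ • B p) b (C ^ k)
    (AS F m r) hF.cpt hb0 (by positivity) hmulF (AS_compact hF m r)
  obtain ⟨bd, hbd⟩ : ∃ s : Set (Fin m → Fin k → U), s = {p | ∀ w ∈ M, ∃ σ : Fin m → Bool,
    cc σ p + b ^ m • w ∈ Tset F q b t m o (fun j => sg (σ j))} := ⟨_, rfl⟩
  obtain ⟨gd, hgd⟩ : ∃ s : Set (Fin m → Fin k → U), s = {p | ∀ w : Fin m → E n, (∀ j, w j ∈ F) →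
    (fun j => q⁻¹ • B (p j) + b • w j) ∈ AS F m r} := ⟨_, rfl⟩
  rw [← hbd] at hbad
  rw [← hgd] at hgood
  have hcov : (univ : Set (Fin m → Fin k → U)) ⊆ bd ∪ gd := by
    intro p _
    by_cases hp : p ∈ bd
    · exact Or.inl hp
    refine Or.inr ?_
    rw [hbd] at hp
    simp only [mem_ofPred_eq, not_forall, not_exists] at hp
    obtain ⟨w, hw, hw2⟩ := hp
    rw [hgd]
    intro u hu
    refine ⟨fun j => ?_, fun c hc => ?_⟩
    · obtain ⟨y, hy, hyB⟩ := hBF (p j)
      simp only at hyB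
      have h3 : q⁻¹ • B (p j) + b • u j = (1 - b) • y + b • u j := by
        rw [← hyB, smul_smul]
        congr 2
        field_simp
      simp only
      rw [h3]
      exact hF.cvx hy (hu j) (by linarith) hb0.le (by ring)
    · set σ : Fin m → Bool := fun j => decide (0 ≤ c j) with hσ
      have hσs : ∀ j, sg (σ j) = if 0 ≤ c j then 1 else -1 := by
        intro j
        rw [hσ]
        by_cases h : 0 ≤ c j
        · simp [sg, h]
        · simp [sg, h]
      have h3 := fun2 hF q b t m o ho hq0 hb0 (by linarith) ht1 (fun j => B (p j))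
        (fun j => q • u j) w c (fun j => sg (σ j)) (fun j => hBF (p j))
        (fun j => ⟨u j, hu j, rfl⟩) hw hc hσs (hw2 σ)
      have h4 : ∀ i, q⁻¹ • (B (p i) + b • (q • u i)) = q⁻¹ • B (p i) + b • u i := by
        intro i
        rw [smul_add, smul_smul, smul_smul]
        congr 2
        field_simp
      simp only [h4] at h3
      exact (mul_le_mul_of_nonneg_right hnum (Finset.sum_nonneg fun i _ => abs_nonneg _)).trans h3
  have hcard : Z ^ (k * m) ≤ (bd.ncard : ℝ) + gd.ncard := by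
    have h3 : (univ : Set (Fin m → Fin k → U)).ncard ≤ bd.ncard + gd.ncard :=
      (Set.ncard_le_ncard hcov (Set.toFinite _)).trans (Set.ncard_union_le _ _)
    rw [Set.ncard_univ, Nat.card_eq_fintype_card] at h3
    simp only [Fintype.card_fun, Fintype.card_fin, Fintype.card_coe] at h3
    rw [← pow_mul] at h3
    rw [hZ]
    exact_mod_cast h3
  -- the numbers
  have hD : (C ^ k) ^ m = Θ ^ (k * m) * (b ^ m) ^ n * Z ^ (k * m) := by
    rw [← pow_mul, hC, mul_pow, mul_pow, hb]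
    congr 2
    rw [← pow_mul, ← pow_mul, ← pow_mul]
    congr 1
    ring
  have hZk : 0 < Z ^ (k * m) := by positivity
  have hbm : 0 < (b ^ m) ^ n := by positivity
  have hbad2 : (bd.ncard : ℝ) ≤ Z ^ (k * m) / 2 := by
    rw [hD, Fintype.card_fun, Fintype.card_fin, Fintype.card_bool] at hbad
    have h3 : (bd.ncard : ℝ) * (b ^ m) ^ n ≤
        (2 ^ m * Θ ^ (k * m) * t ^ n * Z ^ (k * m)) * (b ^ m) ^ n := by
      refine hbad.trans (le_of_eq ?_)
      push_cast
      ring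
    have h4 := le_of_mul_le_mul_right h3 hbm
    have h5 : 2 ^ m * Θ ^ (k * m) * t ^ n ≤ 1 / 2 := by
      rw [mul_pow] at htd
      have h6 : (2 : ℝ) ^ (m + 1) ≤ 2 ^ (k * m) := by
        refine pow_le_pow_right₀ (by norm_num) ?_
        nlinarith
      have h7 : 0 ≤ t ^ n * Θ ^ (k * m) := by positivity
      have h8 : t ^ n * Θ ^ (k * m) * 2 ^ (m + 1) ≤ 1 := by
        calc t ^ n * Θ ^ (k * m) * 2 ^ (m + 1) ≤ t ^ n * Θ ^ (k * m) * 2 ^ (k * m) :=
              mul_le_mul_of_nonneg_left h6 h7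
          _ = t ^ n * (2 ^ (k * m) * Θ ^ (k * m)) := by ring
          _ ≤ 1 := htd
      rw [pow_succ] at h8
      nlinarith
    calc (bd.ncard : ℝ) ≤ 2 ^ m * Θ ^ (k * m) * t ^ n * Z ^ (k * m) := h4
      _ ≤ 1 / 2 * Z ^ (k * m) := mul_le_mul_of_nonneg_right h5 hZk.le
      _ = _ := by ring
  have hgood2 : (gd.ncard : ℝ) ≤ Z ^ (k * m) / 4 := by
    have h3 : (gd.ncard : ℝ) * (b ^ n * volume.real F) ^ m ≤
        Θ ^ (k * m) * (b ^ m) ^ n * Z ^ (k * m) *
          (1 / (4 * Θ ^ (k * m)) * volume.real F ^ m) := by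
      refine hgood.trans ?_
      rw [hD]
      exact mul_le_mul_of_nonneg_left hA (by positivity)
    have hV : 0 < (b ^ m) ^ n * volume.real F ^ m := by positivity
    have h4 : (gd.ncard : ℝ) * ((b ^ m) ^ n * volume.real F ^ m) ≤
        Z ^ (k * m) / 4 * ((b ^ m) ^ n * volume.real F ^ m) := by
      calc (gd.ncard : ℝ) * ((b ^ m) ^ n * volume.real F ^ m)
          = (gd.ncard : ℝ) * (b ^ n * volume.real F) ^ m := by
            rw [mul_pow]
            have : (b ^ m) ^ n = (b ^ n) ^ m := by rw [← pow_mul, ← pow_mul, mul_comm]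
            rw [this]
        _ ≤ _ := h3
        _ = _ := by
            field_simp
    exact le_of_mul_le_mul_right h4 hV
  linarith

end Pool.Agent.PNR
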