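import Mathlib
import Pool.Agent.Rog.BMI
import Pool.Agent.Rog.MAXN
import Pool.Agent.Rog.PACK
import Pool.Agent.HRP.BAD
import Pool.Agent.HRP.PRD

/-!
# Partition numbers of convex bodies in normed spaces and random simplices (MP_c15520_co)

`F` is a convex body, `KK F` half of its difference body.  Every norm in which `F` has diameter `2`
is at most the norm with unit ball `KK F`.
-/

set_option autoImplicit false

open MeasureTheory Set
open scoped Pointwise

namespace Pool.Agent.PNR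

open Pool.Agent.Rog (E SymBody)

/-- Convex bodies. -/
structure Body {n : ℕ} (F : Set (E n)) : Prop where
  cpt : IsCompact F
  cvx : Convex ℝ F
  int : (interior F).Nonempty

/-- Half of the difference body. -/
def KK {n : ℕ} (F : Set (E n)) : Set (E n) := {z | ∃ x ∈ F, ∃ y ∈ F, z = (1 / 2 : ℝ) • (x - y)}

/-- The `m`-tuples of points of `F` that span an almost isometric copy of the simplex of the unit
vectors of `ℓ_1^m`, in the norm with unit ball `KK F`. -/
def AS {n : ℕ} (F : Set (E n)) (m : ℕ) (r : ℝ) : Set (Fin m → E n) :=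
  {w | (∀ i, w i ∈ F) ∧ ∀ c : Fin m → ℝ, ∑ i, c i = 0 →
    r * ∑ i, |c i| ≤ gauge (KK F) (∑ i, c i • w i)}

/-- A family of points meets every set of diameter at most `ρ` at most `C` times. -/
def Mult {n : ℕ} (K : Set (E n)) {ι : Type} (x : ι → E n) (ρ C : ℝ) : Prop :=
  ∀ S : Set (E n), (∀ y ∈ S, ∀ z ∈ S, y - z ∈ ρ • K) → (({i | x i ∈ S} : Set ι).ncard : ℝ) ≤ C

/-- The set in which the end points of the chains lie. -/
def Aset {n : ℕ} (F : Set (E n)) (q b : ℝ) (m : ℕ) (s : Fin m → ℝ) : Set (E n) :=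
  {z | ∃ f : Fin m → E n, (∀ j, f j ∈ F) ∧ ∃ w ∈ KK F,
    z = (∑ j : Fin m, (b ^ (j : ℕ) * s j * (q * (1 - b))) • f j) + (b ^ m * q) • w}

/-- Its homothetic copy with ratio `t`. -/
def Tset {n : ℕ} (F : Set (E n)) (q b t : ℝ) (m : ℕ) (o : E n) (s : Fin m → ℝ) : Set (E n) :=
  (fun z => (1 - t) • (∑ j : Fin m, (b ^ (j : ℕ) * s j * (q * (1 - b))) • o) + t • z) ''
    Aset F q b m s

/-- `F` is a union of `N` sets whose `G`-diameter is smaller than that of `F`. -/
def PartN {n : ℕ} (F G : Set (E n)) (N : ℕ) : Prop :=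
  ∃ A : Fin N → Set (E n), (⋃ i, A i) = F ∧ ∀ i, ∃ c : ℝ,
    c < sSup ((fun p : E n × E n => gauge G (p.1 - p.2)) '' (F ×ˢ F)) ∧
    ∀ x ∈ A i, ∀ y ∈ A i, gauge G (x - y) ≤ c

end Pool.Agent.PNR
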