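import Mathlib

/-! The greedy algorithm for families of subsets. -/

set_option autoImplicit false

namespace Pool.Agent.PNR

open Classical in
/-- If every nonempty subset `U` of `X` contains a member of the family `P` with at least `κ |U|`
elements, then at most `1 + log |X| / κ` members of the family cover `X`. -/
theorem greedy {α : Type*} (P : Finset α → Prop) (X : Finset α) (κ : ℝ) (hκ : 0 < κ)
    (hX : X.Nonempty)
    (hyp : ∀ U : Finset α, U ⊆ X → U.Nonempty → ∃ S : Finset α, P S ∧ S ⊆ U ∧
      κ * U.card ≤ S.card) :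
    ∃ (N : ℕ) (S : Fin N → Finset α), (N : ℝ) ≤ 1 + Real.log X.card / κ ∧ (∀ i, P (S i)) ∧
      ∀ x ∈ X, ∃ i, x ∈ S i := by
  have hXc : (0 : ℝ) < X.card := by exact_mod_cast hX.card_pos
  have hκ1 : κ ≤ 1 := by
    obtain ⟨S, _, hSX, hS⟩ := hyp X (Finset.Subset.refl X) hX
    have h1 : (S.card : ℝ) ≤ X.card := by exact_mod_cast Finset.card_le_card hSX
    by_contra h
    rw [not_le] at h
    have : (X.card : ℝ) < κ * X.card := by nlinarith
    linarith
  have hmain : ∀ N : ℕ, ∃ T : Fin N → Finset α, (∀ i, P (T i)) ∧
      ((X.filter (fun x => ∀ i, x ∉ T i)).card : ℝ) ≤ (1 - κ) ^ N * X.card := by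
    intro N
    induction N with
    | zero =>
      refine ⟨Fin.elim0, fun i => i.elim0, ?_⟩
      rw [pow_zero, one_mul]
      exact_mod_cast Finset.card_filter_le _ _
    | succ N ih =>
      obtain ⟨T, hT, hU⟩ := ih
      set U := X.filter (fun x => ∀ i, x ∉ T i) with hUdef
      obtain ⟨S0, hS0, _, _⟩ := hyp X (Finset.Subset.refl X) hX
      rcases U.eq_empty_or_nonempty with h0 | hne
      · refine ⟨Fin.cons S0 T, ?_, ?_⟩
        · intro i
          refine Fin.cases ?_ (fun j => ?_) i
          · simpa using hS0
          · simpa using hT j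
        · have e : X.filter (fun x => ∀ i : Fin (N + 1), x ∉ (Fin.cons S0 T : Fin (N + 1) → Finset α) i) ⊆ U := by
            intro x hx
            rw [Finset.mem_filter] at hx
            rw [hUdef, Finset.mem_filter]
            refine ⟨hx.1, fun i => ?_⟩
            have := hx.2 i.succ
            simpa using this
          rw [h0, Finset.subset_empty] at e
          rw [e]
          simp only [Finset.card_empty, Nat.cast_zero]
          exact mul_nonneg (pow_nonneg (by linarith) _) hXc.le
      · obtain ⟨S, hS, hSU, hc⟩ := hyp U (Finset.filter_subset _ _) hne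
        refine ⟨Fin.cons S T, ?_, ?_⟩
        · intro i
          refine Fin.cases ?_ (fun j => ?_) i
          · simpa using hS
          · simpa using hT j
        · have e : X.filter (fun x => ∀ i : Fin (N + 1), x ∉ (Fin.cons S T : Fin (N + 1) → Finset α) i) = U \ S := by
            ext x
            rw [Finset.mem_filter, Finset.mem_sdiff, hUdef, Finset.mem_filter, Fin.forall_fin_succ]
            simp only [Fin.cons_zero, Fin.cons_succ]
            tauto
          rw [e]
          have h1 : ((U \ S).card : ℝ) = U.card - S.card := by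
            rw [Finset.card_sdiff_of_subset hSU, Nat.cast_sub (Finset.card_le_card hSU)]
          calc ((U \ S).card : ℝ) ≤ (1 - κ) * U.card := by rw [h1]; linarith
            _ ≤ (1 - κ) * ((1 - κ) ^ N * X.card) := mul_le_mul_of_nonneg_left hU (by linarith)
            _ = (1 - κ) ^ (N + 1) * X.card := by ring
  set N : ℕ := ⌊Real.log X.card / κ⌋₊ + 1 with hN
  obtain ⟨T, hT, hU⟩ := hmain N
  have hlog : 0 ≤ Real.log X.card := Real.log_natCast_nonneg _
  refine ⟨N, T, ?_, hT, ?_⟩
  · have h2 : (⌊Real.log X.card / κ⌋₊ : ℝ) ≤ Real.log X.card / κ :=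
      Nat.floor_le (div_nonneg hlog hκ.le)
    rw [hN]
    push_cast
    linarith
  · have hlt : (1 - κ) ^ N * X.card < 1 := by
      have h1 : (1 - κ) ^ N ≤ Real.exp (-κ * N) := by
        have : 1 - κ ≤ Real.exp (-κ) := by
          have := Real.add_one_le_exp (-κ)
          linarith
        calc (1 - κ) ^ N ≤ (Real.exp (-κ)) ^ N := pow_le_pow_left₀ (by linarith) this N
          _ = Real.exp (-κ * N) := by rw [← Real.exp_nat_mul]; ring_nf
      have h2 : Real.log X.card < κ * N := by
        have h3 : Real.log X.card / κ < N := by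
          rw [hN]
          push_cast
          exact Nat.lt_floor_add_one _
        rw [div_lt_iff₀ hκ] at h3
        linarith
      have h3 : Real.exp (-κ * N) * X.card < 1 := by
        have h4 : Real.exp (-κ * N) < Real.exp (-Real.log X.card) :=
          Real.exp_lt_exp.mpr (by linarith)
        have h5 : Real.exp (-Real.log X.card) = (X.card : ℝ)⁻¹ := by
          rw [Real.exp_neg, Real.exp_log hXc]
        rw [h5] at h4
        calc Real.exp (-κ * N) * X.card < (X.card : ℝ)⁻¹ * X.card :=
              mul_lt_mul_of_pos_right h4 hXc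
          _ = 1 := inv_mul_cancel₀ hXc.ne'
      exact lt_of_le_of_lt (mul_le_mul_of_nonneg_right h1 hXc.le) h3
    have h0 : X.filter (fun x => ∀ i, x ∉ T i) = ∅ := by
      rw [← Finset.card_eq_zero]
      have : ((X.filter (fun x => ∀ i, x ∉ T i)).card : ℝ) < 1 := lt_of_le_of_lt hU hlt
      have h1 : (X.filter (fun x => ∀ i, x ∉ T i)).card < 1 := by exact_mod_cast this
      omega
    intro x hx
    by_contra hcon
    push Not at hcon
    have : x ∈ X.filter (fun x => ∀ i, x ∉ T i) := Finset.mem_filter.mpr ⟨hx, hcon⟩
    rw [h0] at this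
    exact absurd this (Finset.notMem_empty x)

end Pool.Agent.PNR
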