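import Pool.Agent.HRP.NUM

/-! The numerical part. -/

set_option autoImplicit false

namespace Pool.Agent.PNR

open Pool.Agent.HRP.NUM_ in
theorem num2 (n k m : ℕ) (Θ q a b t : ℝ) (hn : 2 ≤ n) (hk : 2 ≤ k) (hm : 1 ≤ m) (hΘ : 1 ≤ Θ)
    (hH : 2 * 2 ^ (k * m) * (k * m) * Real.log (2 * Θ) ≤ n) (hq : q = 1 - 1 / n)
    (ha : a = q / (1 + q)) (hb : b = a ^ k) (ht : t = 1 - k * m * Real.log (2 * Θ) / n) :
    1 / 2 ≤ q ∧ q < 1 ∧ 0 < a ∧ a < 1 / 2 ∧ 1 ≤ a ^ n * (Real.exp 1 * 2 ^ n) ∧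
    0 ≤ t ∧ t ≤ 1 ∧ t ^ n * (2 * Θ) ^ (k * m) ≤ 1 ∧ b < 1 / 2 ∧
    (1 : ℝ) - 4 / 2 ^ k ≤ 1 - 2 * b - 2 * (1 - t) / b ^ (m - 1) := by
  have hD : (2 : ℝ) ≤ n := by exact_mod_cast hn
  have hD0 : (0 : ℝ) < n := by linarith
  have hL : 0 < Real.log (2 * Θ) := Real.log_pos (by linarith)
  have hL2 : 1 / 2 ≤ Real.log (2 * Θ) := by
    have h1 : Real.log 2 ≤ Real.log (2 * Θ) := Real.log_le_log (by norm_num) (by linarith)
    have h2 := Real.log_two_gt_d9
    linarith
  set L := Real.log (2 * Θ) with hLdef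
  have hk' : (2 : ℝ) ≤ k := by exact_mod_cast hk
  have hm' : (1 : ℝ) ≤ m := by exact_mod_cast hm
  have hkm0 : (0 : ℝ) < k * m := by positivity
  have hP : (0 : ℝ) < 2 ^ (k * m) := by positivity
  have hP1 : (1 : ℝ) ≤ 2 ^ (k * m) := one_le_pow₀ (by norm_num)
  have hkm : (k : ℝ) * m ≤ n - 1 := by
    have h1 : k * m + 1 ≤ 2 ^ (k * m) := Nat.lt_two_pow_self
    have h2 : ((k * m + 1 : ℕ) : ℝ) ≤ ((2 ^ (k * m) : ℕ) : ℝ) := by exact_mod_cast h1
    push_cast at h2
    have h3 : (2 : ℝ) ^ (k * m) * (k * m) ≤ n := by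
      calc (2 : ℝ) ^ (k * m) * (k * m) = 2 * 2 ^ (k * m) * (k * m) * (1 / 2) := by ring
        _ ≤ 2 * 2 ^ (k * m) * (k * m) * L := mul_le_mul_of_nonneg_left hL2 (by positivity)
        _ ≤ n := hH
    have h4 : (1 : ℝ) ≤ k * m := by nlinarith
    nlinarith
  have hinv : 1 / (n : ℝ) ≤ 1 / 2 := one_div_le_one_div_of_le (by norm_num) hD
  have hinv0 : 0 < 1 / (n : ℝ) := by positivity
  have hq1 : 1 / 2 ≤ q := by linarith
  have hq2 : q < 1 := by linarith
  have ha0 : 0 < a := by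
    rw [ha]
    exact div_pos (by linarith) (by linarith)
  have ha2 : a < 1 / 2 := by
    rw [ha, div_lt_div_iff₀ (by linarith) (by norm_num)]
    linarith
  have h2a := two_a hD hq ha
  set u := 1 + 1 / (2 * ((n : ℝ) - 1)) with hu
  have hu0 : 0 < u := by
    have : 0 < 1 / (2 * ((n : ℝ) - 1)) := div_pos one_pos (by linarith)
    linarith
  have hX0 : 0 ≤ k * m * L := by positivity
  have hXd : k * m * L ≤ n := by
    calc k * m * L = 1 * (k * m * L) := by ring
      _ ≤ (2 * 2 ^ (k * m)) * (k * m * L) := mul_le_mul_of_nonneg_right (by linarith) hX0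
      _ = 2 * 2 ^ (k * m) * (k * m) * L := by ring
      _ ≤ n := hH
  have ht0 : 0 ≤ t := by
    rw [ht]
    have : k * m * L / n ≤ 1 := (div_le_one hD0).2 hXd
    linarith
  have ht1 : t ≤ 1 := by
    rw [ht]
    have : 0 ≤ k * m * L / n := div_nonneg hX0 hD0.le
    linarith
  have hbk : b ≤ (1 / 2) ^ k := by
    rw [hb]
    exact pow_le_pow_left₀ ha0.le ha2.le k
  have hb0 : 0 < b := by
    rw [hb]
    positivity
  refine ⟨hq1, hq2, ha0, ha2, ?_, ht0, ht1, ?_, ?_, ?_⟩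
  · have h1 : u ^ n ≤ Real.exp 1 := by
      refine (pow_le hD n).trans (Real.exp_le_exp.2 ?_)
      rw [div_le_one (by linarith)]
      linarith
    calc (1 : ℝ) = (2 * a * u) ^ n := by rw [h2a, one_pow]
      _ = a ^ n * (u ^ n * 2 ^ n) := by
          rw [mul_pow, mul_pow]
          ring
      _ ≤ a ^ n * (Real.exp 1 * 2 ^ n) := by gcongr
  · have h1 : t ≤ Real.exp (-(k * m * L / n)) := by
      have := Real.add_one_le_exp (-(k * m * L / n))
      rw [ht]
      linarith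
    have h2 : t ^ n ≤ Real.exp (-(k * m * L)) := by
      refine (pow_le_pow_left₀ ht0 h1 n).trans (le_of_eq ?_)
      rw [← Real.exp_nat_mul]
      congr 1
      field_simp
    have h3 : (2 * Θ) ^ (k * m) = Real.exp (k * m * L) := by
      rw [show (k : ℝ) * m * L = ((k * m : ℕ) : ℝ) * L by push_cast; ring, Real.exp_nat_mul, hLdef,
        Real.exp_log (by linarith)]
    calc t ^ n * (2 * Θ) ^ (k * m) ≤ Real.exp (-(k * m * L)) * Real.exp (k * m * L) := by
          rw [h3]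
          exact mul_le_mul_of_nonneg_right h2 (Real.exp_pos _).le
      _ = 1 := by
          rw [← Real.exp_add]
          simp
  · rw [hb]
    have h1 : a ^ k ≤ a := pow_le_of_le_one ha0.le (by linarith) (by omega)
    linarith
  · -- the last inequality
    set P : ℝ := 2 ^ (k * (m - 1)) with hPdef
    have hP0 : 0 < P := by positivity
    have hPk : 2 ^ k * P = 2 ^ (k * m) := by
      rw [hPdef, ← pow_add]
      congr 1
      obtain ⟨m', rfl⟩ : ∃ m', m = m' + 1 := ⟨m - 1, by omega⟩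
      rw [Nat.add_sub_cancel]
      ring
    have hbm0 : 0 < b ^ (m - 1) := by positivity
    have h1 : 1 / b ^ (m - 1) ≤ 2 * P := by
      have h2 : u ^ (k * (m - 1)) ≤ 2 := by
        refine (pow_le hD _).trans ((Real.exp_le_exp.2 ?_).trans exp_half)
        rw [div_le_div_iff₀ (by linarith) (by norm_num)]
        have h3 : ((k * (m - 1) : ℕ) : ℝ) ≤ k * m := by
          have : k * (m - 1) ≤ k * m := Nat.mul_le_mul_left _ (by omega)
          exact_mod_cast this
        linarith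
      have h3 : b ^ (m - 1) * (P * u ^ (k * (m - 1))) = 1 := by
        rw [hb, ← pow_mul, hPdef, ← mul_pow, ← mul_pow, ← mul_assoc, mul_comm a 2, h2a, one_pow]
      rw [div_le_iff₀ hbm0]
      calc (1 : ℝ) = b ^ (m - 1) * (P * u ^ (k * (m - 1))) := h3.symm
        _ ≤ b ^ (m - 1) * (P * 2) := by gcongr
        _ = 2 * P * b ^ (m - 1) := by ring
    have h1t : 1 - t = k * m * L / n := by
      rw [ht]
      ring
    have h1t0 : 0 ≤ 1 - t := by linarith
    have h2k : (0 : ℝ) < 2 ^ k := by positivity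
    have h2 : 2 * (1 - t) / b ^ (m - 1) ≤ 2 / 2 ^ k := by
      calc 2 * (1 - t) / b ^ (m - 1) = 2 * (1 - t) * (1 / b ^ (m - 1)) := by ring
        _ ≤ 2 * (1 - t) * (2 * P) := mul_le_mul_of_nonneg_left h1 (by linarith)
        _ = 2 * (2 * 2 ^ (k * m) * (k * m) * L) / (n * 2 ^ k) := by
            rw [h1t, ← hPk]
            field_simp
        _ ≤ 2 * n / (n * 2 ^ k) := by
            refine div_le_div_of_nonneg_right ?_ (by positivity)
            linarith
        _ = 2 / 2 ^ k := by field_simp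
    have hbk' : b ≤ 1 / 2 ^ k := by
      rw [one_div, ← inv_pow, ← one_div]
      exact hbk
    have h3 : (4 : ℝ) / 2 ^ k = 2 * (1 / 2 ^ k) + 2 / 2 ^ k := by ring
    linarith

end Pool.Agent.PNR
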