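import Pool.Agent.PNR.Top

/-! Pairs of points: when there are no almost isometric simplices. -/

set_option autoImplicit false

open MeasureTheory Set
open scoped Pointwise Topology

namespace Pool.Agent.PNR

open Pool.Agent.Rog (E SymBody)

variable {n : ℕ} {F G : Set (E n)}

lemma PartN_mono {N M : ℕ} (h : PartN F G N) (hNM : N ≤ M) : PartN F G M := by
  classical
  obtain ⟨A, hA, hA2⟩ := h
  refine ⟨fun i => if hi : (i : ℕ) < N then A ⟨i, hi⟩ else ∅, ?_, ?_⟩
  · rw [← hA]
    ext x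
    simp only [mem_iUnion]
    constructor
    · rintro ⟨i, hi⟩
      by_cases h : (i : ℕ) < N
      · rw [dif_pos h] at hi
        exact ⟨_, hi⟩
      · rw [dif_neg h] at hi
        exact absurd hi (notMem_empty x)
    · rintro ⟨i, hi⟩
      refine ⟨⟨i, lt_of_lt_of_le i.2 hNM⟩, ?_⟩
      simp only
      rw [dif_pos i.2]
      exact hi
  · intro i
    by_cases h : (i : ℕ) < N
    · simp only [dif_pos h]
      exact hA2 _
    · simp only [dif_neg h]
      refine ⟨_, sub_one_lt _, fun x hx => absurd hx (notMem_empty x)⟩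

/-- signed sums of differences of points of a tuple in `AS` are long -/
lemma AS_pairs (j : ℕ) (w : Fin (j + j) → E n) (r : ℝ) (hw : w ∈ AS F (j + j) r)
    (s : Fin j → ℝ) (hs : ∀ i, s i = 1 ∨ s i = -1) :
    r * (2 * j) ≤ gauge (KK F) (∑ i, s i • (w (Fin.castAdd j i) - w (Fin.natAdd j i))) := by
  have h1 := hw.2 (Fin.append s (fun i => -s i)) (by
    rw [Fin.sum_univ_add]
    simp only [Fin.append_left, Fin.append_right, Finset.sum_neg_distrib]
    ring)
  have h2 : ∑ i, |Fin.append s (fun i => -s i) i| = 2 * j := by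
    rw [Fin.sum_univ_add]
    simp only [Fin.append_left, Fin.append_right, abs_neg]
    have h3 : ∀ i, |s i| = 1 := by
      intro i
      rcases hs i with h | h <;> rw [h] <;> norm_num
    simp only [h3, Finset.sum_const, Finset.card_univ, Fintype.card_fin, nsmul_eq_mul, mul_one]
    ring
  rw [h2, Fin.sum_univ_add] at h1
  simp only [Fin.append_left, Fin.append_right] at h1
  have h4 : (∑ i, s i • (w (Fin.castAdd j i) - w (Fin.natAdd j i))) =
      (∑ i, s i • w (Fin.castAdd j i)) + ∑ i, -s i • w (Fin.natAdd j i) := by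
    simp only [smul_sub, Finset.sum_sub_distrib, neg_smul, Finset.sum_neg_distrib]
    abel
  rw [h4]
  exact h1

/-- the union bound -/
lemma AS_small (hF : Body F) (m : ℕ) (r : ℝ) (X : Set (E n)) (hX : X ⊆ F)
    (h : ∀ w : Fin m → E n, (∀ i, w i ∈ F ∧ w i ∉ X) → w ∉ AS F m r) {p : ℝ} (hm : 1 ≤ m)
    (hp : volume.real X ≤ p * volume.real F) :
    volume.real (AS F m r) ≤ m * p * volume.real F ^ m := by
  classical
  have hsub : AS F m r ⊆ ⋃ i ∈ (Finset.univ : Finset (Fin m)),
      (univ.pi fun j : Fin m => if j = i then X else F) := by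
    intro w hw
    simp only [mem_iUnion, Finset.mem_univ, exists_true_left]
    by_contra hcon
    push Not at hcon
    refine h w (fun i => ⟨hw.1 i, fun hi => hcon i ?_⟩) hw
    intro j _
    simp only
    split_ifs with hji
    · rw [hji]
      exact hi
    · exact hw.1 j
  have hFfin : volume F ≠ ⊤ := hF.cpt.measure_lt_top.ne
  have hpi : ∀ i : Fin m, volume.real (univ.pi fun j : Fin m => if j = i then X else F) =
      volume.real X * volume.real F ^ (m - 1) := by
    intro i
    rw [measureReal_def, volume_pi_pi, ENNReal.toReal_prod]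
    rw [← Finset.mul_prod_erase Finset.univ _ (Finset.mem_univ i)]
    rw [if_pos rfl]
    have h1 : ∀ j ∈ Finset.univ.erase i, (volume (if j = i then X else F)).toReal =
        volume.real F := by
      intro j hj
      rw [if_neg (Finset.ne_of_mem_erase hj)]
      rfl
    rw [Finset.prod_congr rfl h1, Finset.prod_const, Finset.card_erase_of_mem (Finset.mem_univ i),
      Finset.card_univ, Fintype.card_fin]
    rfl
  have hle : volume.real (AS F m r) ≤ ∑ i : Fin m,
      volume.real (univ.pi fun j : Fin m => if j = i then X else F) := by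
    refine le_trans (measureReal_mono hsub ?_) (measureReal_biUnion_finset_le _ _)
    refine (lt_of_le_of_lt (measure_biUnion_finset_le _ _) ?_).ne
    refine ENNReal.sum_lt_top.2 fun i _ => ?_
    rw [volume_pi_pi]
    refine ENNReal.prod_lt_top fun j _ => ?_
    split_ifs
    · exact lt_of_le_of_lt (measure_mono hX) hF.cpt.measure_lt_top
    · exact hF.cpt.measure_lt_top
  rw [Finset.sum_congr rfl fun i _ => hpi i, Finset.sum_const, Finset.card_univ, Fintype.card_fin,
    nsmul_eq_mul] at hle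
  refine hle.trans ?_
  have h2 : volume.real F ^ m = volume.real F * volume.real F ^ (m - 1) := by
    rw [← pow_succ']
    congr 1
    omega
  rw [h2]
  calc (m : ℝ) * (volume.real X * volume.real F ^ (m - 1))
      ≤ m * (p * volume.real F * volume.real F ^ (m - 1)) := by gcongr
    _ = m * p * (volume.real F * volume.real F ^ (m - 1)) := by ring

/-- short signed sums in Euclidean space -/
lemma signs (j : ℕ) (D : ℝ) (z : Fin j → E n) (hz : ∀ i, ‖z i‖ ≤ D) :
    ∃ s : Fin j → ℝ, (∀ i, s i = 1 ∨ s i = -1) ∧ ‖∑ i, s i • z i‖ ^ 2 ≤ j * D ^ 2 := by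
  induction j with
  | zero => exact ⟨fun _ => 1, fun _ => Or.inl rfl, by simp⟩
  | succ j ih =>
    obtain ⟨s, hs, hsum⟩ := ih (Fin.tail z) (fun i => hz i.succ)
    set S : E n := ∑ i, s i • Fin.tail z i with hS
    have hD : ‖z 0‖ ^ 2 ≤ D ^ 2 := pow_le_pow_left₀ (norm_nonneg _) (hz 0) 2
    have key : ∃ e : ℝ, (e = 1 ∨ e = -1) ∧ ‖e • z 0 + S‖ ^ 2 ≤ ‖z 0‖ ^ 2 + ‖S‖ ^ 2 := by
      by_cases h : inner ℝ (z 0) S ≤ 0
      · refine ⟨1, Or.inl rfl, ?_⟩
        rw [one_smul, norm_add_sq_real]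
        linarith
      · refine ⟨-1, Or.inr rfl, ?_⟩
        rw [norm_add_sq_real, neg_smul, one_smul, inner_neg_left, norm_neg]
        push Not at h
        linarith
    obtain ⟨e, he, hle⟩ := key
    refine ⟨Fin.cons e s, ?_, ?_⟩
    · intro i
      refine Fin.cases ?_ (fun l => ?_) i
      · simpa using he
      · simpa using hs l
    · rw [Fin.sum_univ_succ]
      simp only [Fin.cons_zero, Fin.cons_succ]
      have h1 : ∑ i : Fin j, s i • z i.succ = S := rfl
      rw [h1]
      push_cast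
      linarith

/-- Points in a ball whose multiple lies in the difference body do not span simplices. -/
lemma no_AS_ball (hF : Body F) (T : E n →ₗ[ℝ] E n) (v : E n) (R : ℝ) (hR : 0 ≤ R)
    (hT : ∀ x, ‖T x‖ ≤ 1 → ∃ y ∈ F, ∃ z ∈ F, x = y - z) (j : ℕ) (hj : 16 * R ^ 2 < j)
    (w : Fin (j + j) → E n) (hw : ∀ i, ‖T (w i) - v‖ ≤ R) : w ∉ AS F (j + j) (1 / 2) := by
  intro hAS
  have hj0 : (0 : ℝ) < j := lt_of_le_of_lt (by positivity) hj
  obtain ⟨s, hs, hsum⟩ := signs j (2 * R)
    (fun i => T (w (Fin.castAdd j i) - w (Fin.natAdd j i))) (by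
      intro i
      have h1 : T (w (Fin.castAdd j i) - w (Fin.natAdd j i)) =
          (T (w (Fin.castAdd j i)) - v) - (T (w (Fin.natAdd j i)) - v) := by
        rw [map_sub]
        abel
      rw [h1]
      have h2 := norm_sub_le (T (w (Fin.castAdd j i)) - v) (T (w (Fin.natAdd j i)) - v)
      have h3 := hw (Fin.castAdd j i)
      have h4 := hw (Fin.natAdd j i)
      linarith)
  have h1 := AS_pairs j w (1 / 2) hAS s hs
  set y : E n := ∑ i, s i • (w (Fin.castAdd j i) - w (Fin.natAdd j i)) with hy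
  have h2 : T y = ∑ i, s i • T (w (Fin.castAdd j i) - w (Fin.natAdd j i)) := by
    rw [hy, map_sum]
    simp only [map_smul]
  rw [← h2] at hsum
  have h3 : ‖T y‖ ^ 2 < (j / 2) ^ 2 := by nlinarith
  have h4 : ‖T y‖ < j / 2 := lt_of_pow_lt_pow_left₀ 2 (by positivity) h3
  set ρ : ℝ := (‖T y‖ + j / 2) / 2 with hρ
  have hρ0 : 0 < ρ := by
    have := norm_nonneg (T y)
    rw [hρ]
    linarith
  have hρ1 : ‖T y‖ ≤ ρ := by rw [hρ]; linarith
  have hρ2 : ρ < j / 2 := by rw [hρ]; linarith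
  obtain ⟨a, ha, b, hb, hab⟩ := hT (ρ⁻¹ • y) (by
    rw [map_smul, norm_smul, norm_inv, Real.norm_of_nonneg hρ0.le, inv_mul_le_iff₀ hρ0]
    linarith)
  have h5 : y ∈ (2 * ρ) • KK F := by
    refine ⟨(1 / 2 : ℝ) • (a - b), ⟨a, ha, b, hb, rfl⟩, ?_⟩
    simp only
    rw [← hab, smul_smul, smul_smul]
    have : 2 * ρ * (1 / 2) * ρ⁻¹ = 1 := by field_simp
    rw [this, one_smul]
  have h6 : gauge (KK F) y ≤ 2 * ρ := gauge_le_of_mem (by positivity) h5
  linarith

/-- Iterated sign choices. -/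
lemma signs_iter (N : ℕ) (δ : ℝ) (hδ : 0 < δ) (hN : 1 ≤ N)
    (h : ∀ z : Fin N → E n, (∀ i, z i ∈ (2 : ℝ) • KK F) → ∃ s : Fin N → ℝ,
      (∀ i, s i = 1 ∨ s i = -1) ∧ ∑ i, s i • z i ∈ (2 * (δ * N)) • KK F) (l : ℕ) :
    ∀ z : Fin (N ^ l) → E n, (∀ i, z i ∈ (2 : ℝ) • KK F) → ∃ s : Fin (N ^ l) → ℝ,
      (∀ i, s i = 1 ∨ s i = -1) ∧ ∑ i, s i • z i ∈ (2 * (δ * N) ^ l) • KK F := by
  induction l with
  | zero =>
    intro z hz
    refine ⟨fun _ => 1, fun _ => Or.inl rfl, ?_⟩
    simp only [one_smul, pow_zero, mul_one]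
    have h1 : Subsingleton (Fin (N ^ 0)) := by
      rw [pow_zero]
      infer_instance
    have h2 : (0 : ℕ) < N ^ 0 := by simp
    have h3 : (Finset.univ : Finset (Fin (N ^ 0))) = {⟨0, h2⟩} := by
      ext i
      simp only [Finset.mem_univ, Finset.mem_singleton, true_iff]
      exact Subsingleton.elim _ _
    rw [h3, Finset.sum_singleton]
    exact hz _
  | succ l ih =>
    intro z hz
    -- split into blocks
    have hcard : N ^ (l + 1) = N ^ l * N := pow_succ N l
    set e : Fin (N ^ l) × Fin N ≃ Fin (N ^ (l + 1)) :=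
      finProdFinEquiv.trans (finCongr hcard.symm) with he
    have hNN : (0 : ℝ) < N := by exact_mod_cast hN
    have hδN : 0 < δ * N := by positivity
    have h1 : ∀ i : Fin (N ^ l), ∃ s : Fin N → ℝ, (∀ k, s k = 1 ∨ s k = -1) ∧
        ∑ k, s k • z (e (i, k)) ∈ (2 * (δ * N)) • KK F := fun i => h _ fun k => hz _
    choose s hs hs2 using h1
    obtain ⟨t, ht, ht2⟩ := ih (fun i => (δ * N)⁻¹ • ∑ k, s i k • z (e (i, k))) (by
      intro i
      have h2 := smul_mem_smul (2 * (δ * N)) (δ * N)⁻¹ (hs2 i)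
      have h3 : (δ * N)⁻¹ * (2 * (δ * N)) = 2 := by field_simp
      rw [h3] at h2
      exact h2)
    refine ⟨fun x => t (e.symm x).1 * s (e.symm x).1 (e.symm x).2, ?_, ?_⟩
    · intro x
      simp only
      rcases ht (e.symm x).1 with h2 | h2 <;> rcases hs (e.symm x).1 (e.symm x).2 with h3 | h3 <;>
        rw [h2, h3] <;> norm_num
    · have h2 := smul_mem_smul (2 * (δ * N) ^ l) (δ * N) ht2
      have h3 : δ * N * (2 * (δ * N) ^ l) = 2 * (δ * N) ^ (l + 1) := by ring
      rw [h3] at h2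
      have h4 : (∑ x, (t (e.symm x).1 * s (e.symm x).1 (e.symm x).2) • z x) =
          (δ * N) • ∑ i, t i • (δ * N)⁻¹ • ∑ k, s i k • z (e (i, k)) := by
        rw [← e.sum_comp, Fintype.sum_prod_type, Finset.smul_sum]
        refine Finset.sum_congr rfl fun i _ => ?_
        simp only [Equiv.symm_apply_apply]
        rw [smul_smul, smul_smul, Finset.smul_sum]
        refine Finset.sum_congr rfl fun k _ => ?_
        rw [smul_smul]
        congr 1
        field_simp
      rw [h4]
      exact h2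

lemma no_AS_iter (N : ℕ) (δ : ℝ) (hδ : 0 < δ) (hN : 1 ≤ N)
    (h : ∀ z : Fin N → E n, (∀ i, z i ∈ (2 : ℝ) • KK F) → ∃ s : Fin N → ℝ,
      (∀ i, s i = 1 ∨ s i = -1) ∧ ∑ i, s i • z i ∈ (2 * (δ * N)) • KK F) (l : ℕ)
    (hl : δ ^ l < 1 / 2) (w : Fin (N ^ l + N ^ l) → E n) :
    w ∉ AS F (N ^ l + N ^ l) (1 / 2) := by
  intro hAS
  obtain ⟨s, hs, hs2⟩ := signs_iter N δ hδ hN h l
    (fun i => w (Fin.castAdd (N ^ l) i) - w (Fin.natAdd (N ^ l) i))
    (fun i => sub_mem F (hAS.1 _) (hAS.1 _))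
  have h1 := AS_pairs (N ^ l) w (1 / 2) hAS s hs
  have hNN : (0 : ℝ) < N := by exact_mod_cast hN
  have h2 := gauge_le_of_mem (by positivity) hs2
  have h3 : (2 : ℝ) * (δ * N) ^ l < N ^ l := by
    rw [mul_pow]
    have : (0 : ℝ) < (N : ℝ) ^ l := by positivity
    nlinarith
  push_cast at h1
  linarith

end Pool.Agent.PNR
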