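import Pool.Agent.PNR.Core
import Pool.Agent.PNR.Greedy
import Pool.Agent.PNR.Num

/-! The partition theorem. -/

set_option autoImplicit false

open MeasureTheory Set
open scoped Pointwise Topology

namespace Pool.Agent.PNR

open Pool.Agent.Rog (E SymBody)

variable {n : ℕ} {F G : Set (E n)}

/-- the gauge of a difference is at most the diameter -/
lemma gauge_le_diam (hF : Body F) (hG : SymBody G) : ∀ x ∈ F, ∀ y ∈ F,
    gauge G (x - y) ≤ sSup ((fun p : E n × E n => gauge G (p.1 - p.2)) '' (F ×ˢ F)) := by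
  have hcont : Continuous (gauge G) :=
    continuous_gauge hG.cvx (Pool.Agent.HRP.CPT_.nhds_zero hG)
  have hfc : Continuous (fun p : E n × E n => gauge G (p.1 - p.2)) :=
    hcont.comp (continuous_fst.sub continuous_snd)
  intro x hx y hy
  exact le_csSup ((hF.cpt.prod hF.cpt).image hfc).bddAbove ⟨(x, y), ⟨hx, hy⟩, rfl⟩

lemma diam_pos (hn : 1 ≤ n) (hF : Body F) (hG : SymBody G) :
    0 < sSup ((fun p : E n × E n => gauge G (p.1 - p.2)) '' (F ×ˢ F)) := by
  have h0 := Pool.Agent.HRP.CPT_.nhds_zero hG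
  have : Nonempty (Fin n) := ⟨⟨0, by omega⟩⟩
  have : Nontrivial (E n) := inferInstance
  obtain ⟨v, hv⟩ := exists_ne (0 : E n)
  obtain ⟨a, ha⟩ := hF.int
  have h1 : Filter.Tendsto (fun s : ℝ => a + s • v) (𝓝 0) (𝓝 a) := by
    have h2 : Continuous (fun s : ℝ => a + s • v) := by fun_prop
    have h3 := h2.tendsto 0
    simpa using h3
  have h2 := h1.eventually (isOpen_interior.mem_nhds ha)
  obtain ⟨δ, hδ, hδ'⟩ := Metric.eventually_nhds_iff.1 h2
  have h4 : a + (δ / 2) • v ∈ F := interior_subset (hδ' (by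
    rw [Real.dist_eq, sub_zero, abs_of_pos (by positivity)]
    linarith))
  have h5 := gauge_le_diam hF hG _ h4 a (interior_subset ha)
  rw [add_sub_cancel_left] at h5
  refine lt_of_lt_of_le ?_ h5
  rw [gauge_pos (absorbent_nhds_zero h0) ((NormedSpace.isVonNBounded_iff ℝ).2 hG.cpt.isBounded)]
  exact smul_ne_zero (by positivity) hv

/-- sets which are small in the norm of the difference body have small diameter -/
lemma gauge_par (hF : Body F) (hG : SymBody G) {ρ : ℝ} (hρ : 0 ≤ ρ) {z : E n}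
    (hz : z ∈ ρ • KK F) :
    gauge G z ≤ ρ / 2 * sSup ((fun p : E n × E n => gauge G (p.1 - p.2)) '' (F ×ˢ F)) := by
  obtain ⟨_, ⟨x, hx, y, hy, rfl⟩, rfl⟩ := hz
  simp only [smul_smul]
  rw [gauge_smul_of_nonneg (by positivity), smul_eq_mul]
  have h1 := gauge_le_diam hF hG x hx y hy
  calc ρ * (1 / 2) * gauge G (x - y) = ρ / 2 * gauge G (x - y) := by ring
    _ ≤ _ := mul_le_mul_of_nonneg_left h1 (by positivity)

/-- A net of `F`. -/
lemma net (hn : 1 ≤ n) (hF : Body F) : ∃ X : Finset (E n), X.Nonempty ∧ (∀ x ∈ X, x ∈ F) ∧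
    (X.card : ℝ) ≤ (8 * n + 1) ^ n ∧ ∀ z ∈ F, ∃ x ∈ X, z - x ∈ (1 / (2 * n) : ℝ) • KK F := by
  classical
  have hn0 : (0 : ℝ) < n := by exact_mod_cast (by omega : 0 < n)
  have hK := KK_sym hF
  obtain ⟨o, ho⟩ := hF.nonempty
  have hr : (0 : ℝ) < 1 / (4 * n) := by positivity
  obtain ⟨X, hX1, hX2, hX3⟩ := Pool.Agent.Rog.p_MAXN Pool.Agent.Rog.p_PACK n (KK F)
    {z | ∃ x ∈ F, z = (1 / 2 : ℝ) • (x - o)} (1 / (4 * n)) hK
    (by rintro _ ⟨x, hx, rfl⟩; exact ⟨x, hx, o, ho, rfl⟩) hr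
  have hXc : (X.card : ℝ) ≤ (8 * n + 1) ^ n := by
    have := Pool.Agent.Rog.p_PACK n (KK F) X 0 1 (1 / (4 * n)) hK hr zero_le_one (fun x hx => by
      rw [sub_zero, one_smul]
      obtain ⟨y, hy, rfl⟩ := hX1 x hx
      exact ⟨y, hy, o, ho, rfl⟩) hX2
    refine this.trans (le_of_eq ?_)
    congr 1
    field_simp
    ring
  refine ⟨X.image (fun v => o + (2 : ℝ) • v), ?_, ?_, ?_, ?_⟩
  · obtain ⟨x, hx, _⟩ := hX3 _ ⟨o, ho, rfl⟩
    exact ⟨_, Finset.mem_image_of_mem _ hx⟩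
  · intro x hx
    rw [Finset.mem_image] at hx
    obtain ⟨v, hv, rfl⟩ := hx
    obtain ⟨y, hy, rfl⟩ := hX1 v hv
    rw [smul_smul]
    norm_num
    exact hy
  · refine le_trans ?_ hXc
    exact_mod_cast Finset.card_image_le
  · intro z hz
    obtain ⟨x, hx, hzx⟩ := hX3 _ ⟨z, hz, rfl⟩
    refine ⟨_, Finset.mem_image_of_mem _ hx, ?_⟩
    have h1 := smul_mem_smul (1 / (4 * n) : ℝ) 2 hzx
    have h2 : (2 : ℝ) * (1 / (4 * n)) = 1 / (2 * n) := by
      field_simp
      norm_num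
    have h3 : (2 : ℝ) • ((1 / 2 : ℝ) • (z - o) - x) = z - (o + (2 : ℝ) • x) := by
      module
    rw [h2, h3] at h1
    exact h1

theorem top (n k m : ℕ) (Θ : ℝ) (F G : Set (E n)) (hn : 2 ≤ n) (hk : 2 ≤ k) (hm : 1 ≤ m)
    (hΘ : 1 ≤ Θ) (hH : 2 * 2 ^ (k * m) * (k * m) * Real.log (2 * Θ) ≤ n) (hF : Body F)
    (hG : SymBody G)
    (hA : volume.real (AS F m (1 - 4 / 2 ^ k)) ≤ 1 / (4 * Θ ^ (k * m)) * volume.real F ^ m) :
    ∃ N : ℕ, (N : ℝ) ≤ 1 + Real.exp 1 * 2 ^ n / Θ * (n * Real.log (8 * n + 1)) ∧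
      PartN F G N := by
  classical
  obtain ⟨hq, hq1, ha0, ha1, had, ht0, ht1, htd, hb1, hnum⟩ :=
    num2 n k m Θ _ _ _ _ hn hk hm hΘ hH rfl rfl rfl rfl
  set q : ℝ := 1 - 1 / n with hqdef
  set a : ℝ := q / (1 + q) with hadef
  have hn0 : (0 : ℝ) < n := by exact_mod_cast (by omega : 0 < n)
  have hK := KK_sym hF
  obtain ⟨X, hXne, hXF, hXc, hX3⟩ := net (by omega : 1 ≤ n) hF
  set κ : ℝ := Θ * a ^ n with hκ
  have hκ0 : 0 < κ := by positivity
  obtain ⟨N, S, hN, hS, hcov⟩ := greedy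
    (fun S : Finset (E n) => ∀ x ∈ S, ∀ y ∈ S, x - y ∈ (2 * q) • KK F) X κ hκ0 hXne (by
    intro U hUX hU
    by_contra hcon
    push Not at hcon
    refine core n k m Θ q a _ _ F hn hk hm hΘ hF hA rfl rfl hq hq1 ha0 ha1 ht0 ht1 htd hb1 hnum U
      hU (fun x hx => hXF x (hUX hx)) ?_
    intro S hS
    have h1 := hcon (U.filter (fun x => x ∈ S)) (by
      intro x hx y hy
      exact hS x (Finset.mem_filter.1 hx).2 y (Finset.mem_filter.1 hy).2)
      (Finset.filter_subset _ _)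
    have h2 : ({x | x ∈ U ∧ x ∈ S} : Set (E n)).ncard = (U.filter (fun x => x ∈ S)).card := by
      rw [← Set.ncard_coe_finset]
      congr 1
      ext x
      simp
    rw [h2]
    exact h1.le)
  have hDpos := diam_pos (by omega : 1 ≤ n) hF hG
  set D : ℝ := sSup ((fun p : E n × E n => gauge G (p.1 - p.2)) '' (F ×ˢ F)) with hD
  refine ⟨N, ?_, fun i => {z | z ∈ F ∧ ∃ x ∈ S i, z - x ∈ (1 / (2 * n) : ℝ) • KK F}, ?_, ?_⟩
  · have hlogX : Real.log X.card ≤ n * Real.log (8 * n + 1) := by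
      rw [← Real.log_pow]
      exact Real.log_le_log (by exact_mod_cast hXne.card_pos) hXc
    have hlog0 : 0 ≤ Real.log X.card := Real.log_natCast_nonneg _
    have h1 : 1 / κ ≤ Real.exp 1 * 2 ^ n / Θ := by
      rw [hκ, div_le_div_iff₀ hκ0 (by linarith)]
      have : 1 * Θ ≤ (a ^ n * (Real.exp 1 * 2 ^ n)) * Θ :=
        mul_le_mul_of_nonneg_right had (by linarith)
      linarith
    calc (N : ℝ) ≤ 1 + Real.log X.card / κ := hN
      _ = 1 + (1 / κ) * Real.log X.card := by ring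
      _ ≤ 1 + Real.exp 1 * 2 ^ n / Θ * (n * Real.log (8 * n + 1)) := by
          have := mul_le_mul h1 hlogX hlog0 (by positivity)
          linarith
  · ext z
    rw [mem_iUnion]
    constructor
    · rintro ⟨i, hz, _⟩
      exact hz
    · intro hz
      obtain ⟨x, hx, hzx⟩ := hX3 z hz
      obtain ⟨i, hi⟩ := hcov x hx
      exact ⟨i, hz, x, hi, hzx⟩
  · intro i
    refine ⟨(2 - 1 / n) / 2 * D, ?_, ?_⟩
    · have : 0 < 1 / (n : ℝ) := by positivity
      have h1 : (2 - 1 / (n : ℝ)) / 2 < 1 := by linarith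
      calc (2 - 1 / (n : ℝ)) / 2 * D < 1 * D := mul_lt_mul_of_pos_right h1 hDpos
        _ = D := one_mul D
    · rintro z ⟨_, x, hx, hzx⟩ z' ⟨_, x', hx', hzx'⟩
      have h1 : (0 : ℝ) ≤ 1 / (2 * n) := by positivity
      have h2 := add_mem_smul hK (by linarith : 0 ≤ 1 / (2 * n) + 2 * q) h1
        (add_mem_smul hK h1 (by linarith : 0 ≤ 2 * q) hzx (hS i x hx x' hx'))
        (neg_mem_smul hK hzx')
      have h3 : z - x + (x - x') + -(z' - x') = z - z' := by abel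
      have h4 : 1 / (2 * (n : ℝ)) + 2 * q + 1 / (2 * n) = 2 - 1 / n := by
        rw [hqdef]
        field_simp
        ring
      rw [h3, h4] at h2
      refine gauge_par hF hG ?_ h2
      have : 1 / (n : ℝ) ≤ 1 := by
        rw [div_le_one hn0]
        exact_mod_cast (by omega : 1 ≤ n)
      linarith

end Pool.Agent.PNR
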