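import Pool.Agent.PNR.Chain

/-! The set of end points: compactness, convexity and volume. -/

set_option autoImplicit false

open MeasureTheory Set
open scoped Pointwise Topology

namespace Pool.Agent.PNR

open Pool.Agent.Rog (E SymBody)

variable {n : ℕ} {F : Set (E n)}

lemma Aset_compact (hF : Body F) (q b : ℝ) (m : ℕ) (s : Fin m → ℝ) :
    IsCompact (Aset F q b m s) := by
  have h1 : IsCompact ((fun p : (Fin m → E n) × E n =>
      (∑ j : Fin m, (b ^ (j : ℕ) * s j * (q * (1 - b))) • p.1 j) + (b ^ m * q) • p.2) ''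
      ((univ.pi fun _ : Fin m => F) ×ˢ KK F)) :=
    ((isCompact_univ_pi fun _ => hF.cpt).prod (KK_compact hF.cpt)).image (by fun_prop)
  have h2 : Aset F q b m s = (fun p : (Fin m → E n) × E n =>
      (∑ j : Fin m, (b ^ (j : ℕ) * s j * (q * (1 - b))) • p.1 j) + (b ^ m * q) • p.2) ''
      ((univ.pi fun _ : Fin m => F) ×ˢ KK F) := by
    ext z
    constructor
    · rintro ⟨f, hf, w, hw, rfl⟩
      exact ⟨(f, w), ⟨fun j _ => hf j, hw⟩, rfl⟩
    · rintro ⟨p, ⟨hf, hw⟩, rfl⟩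
      exact ⟨p.1, fun j => hf j (mem_univ j), p.2, hw, rfl⟩
  rw [h2]
  exact h1

lemma Aset_convex (hF : Body F) (q b : ℝ) (m : ℕ) (s : Fin m → ℝ) :
    Convex ℝ (Aset F q b m s) := by
  rintro _ ⟨f, hf, w, hw, rfl⟩ _ ⟨f', hf', w', hw', rfl⟩ α β hα hβ hαβ
  refine ⟨fun j => α • f j + β • f' j, fun j => hF.cvx (hf j) (hf' j) hα hβ hαβ,
    α • w + β • w', (KK_convex hF.cvx) hw hw' hα hβ hαβ, ?_⟩
  simp only [smul_add, Finset.sum_add_distrib, Finset.smul_sum]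
  simp only [smul_comm α, smul_comm β]
  abel

lemma Aset_nonempty (hF : Body F) (q b : ℝ) (m : ℕ) (s : Fin m → ℝ) :
    (Aset F q b m s).Nonempty := by
  obtain ⟨o, ho⟩ := hF.nonempty
  exact ⟨_, fun _ => o, fun _ => ho, 0, zero_mem (KK_sym hF), rfl⟩

lemma Aset_diff (hF : Body F) {q b : ℝ} (hq : 0 ≤ q) (hb : 0 ≤ b) (hb1 : b ≤ 1) (m : ℕ)
    (s : Fin m → ℝ) (hs : ∀ j, s j = 1 ∨ s j = -1) :
    ∀ x ∈ Aset F q b m s, ∀ y ∈ Aset F q b m s, x - y ∈ (2 * q) • KK F := by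
  rintro _ ⟨f, hf, w, hw, rfl⟩ _ ⟨f', hf', w', hw', rfl⟩
  have hK := KK_sym hF
  have hbb : 0 ≤ 1 - b := by linarith
  have h1 : ∀ j ∈ (Finset.univ : Finset (Fin m)),
      (b ^ (j : ℕ) * s j * (q * (1 - b))) • (f j - f' j) ∈
        ((b ^ (j : ℕ) * (q * (1 - b))) * 2) • KK F := by
    intro j _
    have h2 := smul_mem_smul 2 (b ^ (j : ℕ) * (q * (1 - b))) (sign_mem_smul hK (hs j)
      (sub_mem F (hf j) (hf' j)))
    have h3 : (b ^ (j : ℕ) * s j * (q * (1 - b))) • (f j - f' j) =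
        (b ^ (j : ℕ) * (q * (1 - b))) • s j • (f j - f' j) := by
      rw [smul_smul]
      congr 1
      ring
    rw [h3]
    exact h2
  have h2 := sum_mem_smul hK Finset.univ (fun j : Fin m => (b ^ (j : ℕ) * (q * (1 - b))) * 2) _
    (fun j _ => by positivity) h1
  have hww : w - w' ∈ (2 : ℝ) • KK F := by
    have h3 := add_mem_smul hK zero_le_one zero_le_one
      (show w ∈ (1 : ℝ) • KK F by rw [one_smul]; exact hw)
      (neg_mem_smul hK (show w' ∈ (1 : ℝ) • KK F by rw [one_smul]; exact hw'))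
    rw [← sub_eq_add_neg] at h3
    have h4 : (1 : ℝ) + 1 = 2 := by norm_num
    rwa [h4] at h3
  have h3 := smul_mem_smul 2 (b ^ m * q) hww
  have h4 := add_mem_smul hK (Finset.sum_nonneg fun j _ => by positivity)
    (by positivity : 0 ≤ b ^ m * q * 2) h2 h3
  have h5 : (∑ j : Fin m, (b ^ (j : ℕ) * (q * (1 - b))) * 2) + b ^ m * q * 2 = 2 * q := by
    have h6 : (∑ j : Fin m, (b ^ (j : ℕ) * (q * (1 - b))) * 2) =
        2 * q * ((∑ j : Fin m, b ^ (j : ℕ)) * (1 - b)) := by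
      rw [Finset.sum_mul, Finset.mul_sum]
      refine Finset.sum_congr rfl fun j _ => ?_
      ring
    rw [h6, geom_b]
    ring
  rw [h5] at h4
  have h6 : (∑ j : Fin m, (b ^ (j : ℕ) * s j * (q * (1 - b))) • (f j - f' j)) +
      (b ^ m * q) • (w - w') =
      (∑ j : Fin m, (b ^ (j : ℕ) * s j * (q * (1 - b))) • f j) + (b ^ m * q) • w -
      ((∑ j : Fin m, (b ^ (j : ℕ) * s j * (q * (1 - b))) • f' j) + (b ^ m * q) • w') := by
    simp only [smul_sub, Finset.sum_sub_distrib]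
    abel
  rw [← h6]
  exact h4

lemma Tset_compact (hF : Body F) (q b t : ℝ) (m : ℕ) (o : E n) (s : Fin m → ℝ) :
    IsCompact (Tset F q b t m o s) := (Aset_compact hF q b m s).image (by fun_prop)

lemma Tset_vol (hn : 1 ≤ n) (hF : Body F) {q b t : ℝ} (hq : 0 ≤ q) (hb : 0 ≤ b) (hb1 : b ≤ 1)
    (ht : 0 ≤ t) (m : ℕ) (o : E n) (s : Fin m → ℝ) (hs : ∀ j, s j = 1 ∨ s j = -1) :
    volume.real (Tset F q b t m o s) ≤ t ^ n * volume.real (q • KK F) := by
  unfold Tset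
  rw [Pool.Agent.HRP.BAD_.vol_image _ _ t ht, Pool.Agent.HRP.BAD_.vol_smul (KK F) q hq]
  exact mul_le_mul_of_nonneg_left (isodiam hn (KK_sym hF) (Aset_compact hF q b m s)
    (Aset_convex hF q b m s) (Aset_nonempty hF q b m s) hq (Aset_diff hF hq hb hb1 m s hs))
    (pow_nonneg ht n)

end Pool.Agent.PNR
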